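import Pool.Agent.Helper37.OPG.U2
import Pool.Agent.Helper13.OPG.E2

/-!
# Project SLG: the geometric degree

A property which holds for all composites `F k₀` (outside one hypersurface over `F₀`) holds also for the composites
`F' k₀`, where `F'` is the algebraic closure of `F` in a finite extension of `F k₀`.
-/

universe u

namespace Pool.Agent.SLG

open IntermediateField Pool.Agent.OPN Pool.Agent.OPG Pool.Agent.Helper37.UL

/-- a finite subset which generates the same field -/
theorem exists_finite_gen {k k' : Type u} [Field k] [Field k'] [Algebra k k']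
    [FiniteDimensional k k'] (S : Set k') :
    ∃ (n : ℕ) (s : Fin n → k'), (∀ i, s i ∈ S) ∧ adjoin k (Set.range s) = adjoin k S := by
  classical
  let b := Module.finBasis k (adjoin k S)
  have h1 : ∀ i, ∃ T : Finset k', ↑T ⊆ S ∧ (b i : k') ∈ adjoin k (T : Set k') := fun i =>
    exists_finset_of_mem_adjoin (b i).2
  choose T hTS hT using h1
  let U : Finset k' := Finset.univ.biUnion T
  have hUS : (U : Set k') ⊆ S := by
    intro z hz
    obtain ⟨i, -, hi⟩ := Finset.mem_biUnion.1 hz
    exact hTS i hi
  have hU : adjoin k (U : Set k') = adjoin k S := by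
    apply le_antisymm (adjoin.mono k _ _ hUS)
    intro z hz
    have h2 : (⟨z, hz⟩ : adjoin k S) ∈ (⊤ : Submodule k (adjoin k S)) := trivial
    rw [← b.span_eq] at h2
    have h3 : Submodule.span k (Set.range b) ≤
        Submodule.comap (adjoin k S).val.toLinearMap
          (adjoin k (U : Set k')).toSubalgebra.toSubmodule := by
      rw [Submodule.span_le]
      rintro _ ⟨i, rfl⟩
      exact adjoin.mono k _ _ (show (T i : Set k') ⊆ U from fun z hz =>
        Finset.mem_biUnion.2 ⟨i, Finset.mem_univ _, hz⟩) (hT i)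
    exact h3 h2
  refine ⟨U.card, fun i => (U.equivFin.symm i : k'), fun i => hUS (U.equivFin.symm i).2, ?_⟩
  rw [← hU]
  congr 1
  ext z
  constructor
  · rintro ⟨i, rfl⟩
    exact (U.equivFin.symm i).2
  · intro hz
    exact ⟨U.equivFin ⟨z, hz⟩, by simp⟩

/-- **The geometric degree.** -/
theorem geo {F₀ k₀ : Type u} [Field F₀] [Field k₀] [Algebra F₀ k₀] {I : Type}
    {A : ∀ (F k : Type u) [Field F] [Field k] [Algebra F k] [Algebra k₀ k], (I → F) → Prop}
    (h : IsHypU F₀ k₀ A) :
    ∃ Ψ : MvPolynomial I F₀, Ψ ≠ 0 ∧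
      ∀ (F k : Type u) [Field F] [Field k] [Algebra F₀ F] [Algebra F k] [Algebra k₀ k]
        [Algebra F₀ k] [IsScalarTower F₀ F k] [IsScalarTower F₀ k₀ k],
        (∃ S : Finset F, Subfield.closure (S : Set F) = ⊤) →
        adjoin F (Set.range (algebraMap k₀ k)) = ⊤ →
        (∀ {n : ℕ} {x : Fin n → k₀}, AlgebraicIndependent F₀ x →
          AlgebraicIndependent F (algebraMap k₀ k ∘ x)) →
        ∀ a : I → F, MvPolynomial.aeval a Ψ ≠ 0 →
          ∀ (k' : Type u) [Field k'] [Algebra k k'] [Algebra F k'] [IsScalarTower F k k'],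
            FiniteDimensional k k' →
            ∃ (F'' : Type u) (_ : Field F'') (_ : Algebra F'' (adjoin k {z : k' | IsAlgebraic F z}))
              (_ : Algebra k₀ (adjoin k {z : k' | IsAlgebraic F z})) (φ : F →+* F''),
              (∀ c, algebraMap k₀ (adjoin k {z : k' | IsAlgebraic F z}) c =
                algebraMap k _ (algebraMap k₀ k c)) ∧
              (∀ c, algebraMap F'' (adjoin k {z : k' | IsAlgebraic F z}) (φ c) =
                algebraMap k _ (algebraMap F k c)) ∧
              ¬ A F'' (adjoin k {z : k' | IsAlgebraic F z}) (φ ∘ a) := by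
  obtain ⟨Ψ, hΨ, h⟩ := h
  refine ⟨Ψ, hΨ, ?_⟩
  intro F k _ _ _ _ _ _ _ _ hF hk hfree a ha k' _ _ _ _ hfin
  obtain ⟨n, s, hs, hsad⟩ := exists_finite_gen (k := k) {z : k' | IsAlgebraic F z}
  set K'' := adjoin k {z : k' | IsAlgebraic F z} with hK''
  let E := adjoin F (Set.range s)
  have hst : ∀ c : F, algebraMap F k' c = algebraMap k k' (algebraMap F k c) :=
    IsScalarTower.algebraMap_apply F k k'
  have hEK : ∀ z ∈ E, z ∈ K'' := by
    have h1 : E.toSubfield ≤ K''.toSubfield := by
      change (adjoin F (Set.range s)).toSubfield ≤ _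
      rw [adjoin_toSubfield, Subfield.closure_le]
      rintro _ (⟨c, rfl⟩ | ⟨i, rfl⟩)
      · rw [hst]
        exact K''.algebraMap_mem _
      · exact subset_adjoin k _ (hs i)
    exact fun z hz => h1 hz
  -- the algebras
  let i1 : Algebra E K'' := ((algebraMap E k').codRestrict K''.toSubring fun z => hEK _ z.2).toAlgebra
  have hE : ∀ z : E, ((algebraMap E K'' z : K'') : k') = z := fun _ => rfl
  let i2 : Algebra k₀ K'' := ((algebraMap k K'').comp (algebraMap k₀ k)).toAlgebra
  have hk₀ : ∀ c : k₀, algebraMap k₀ K'' c = algebraMap k K'' (algebraMap k₀ k c) := fun _ => rfl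
  let i3 : Algebra F₀ E := ((algebraMap F E).comp (algebraMap F₀ F)).toAlgebra
  let i4 : Algebra F₀ K'' := ((algebraMap k K'').comp (algebraMap F₀ k)).toAlgebra
  have i5 : IsScalarTower F₀ E K'' := by
    refine IsScalarTower.of_algebraMap_eq fun c => ?_
    apply Subtype.ext
    change algebraMap k k' (algebraMap F₀ k c) = algebraMap F k' (algebraMap F₀ F c)
    rw [hst, ← IsScalarTower.algebraMap_apply F₀ F k]
  have i6 : IsScalarTower F₀ k₀ K'' := by
    refine IsScalarTower.of_algebraMap_eq fun c => ?_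
    change algebraMap k K'' (algebraMap F₀ k c) = algebraMap k K'' (algebraMap k₀ k _)
    rw [← IsScalarTower.algebraMap_apply F₀ k₀ k]
  have hE1 := RR.fg_adjoin hF s
  have hgen : adjoin E (Set.range (algebraMap k₀ K'')) = ⊤ := by
    rw [eq_top_iff]
    rintro ⟨z, hz⟩ -
    -- the image in `k'`
    let L : Subfield k' := (adjoin E (Set.range (algebraMap k₀ K''))).toSubfield.map
      (algebraMap K'' k')
    have hL0 : ∀ y : K'', (y : k') ∈ L → y ∈ adjoin E (Set.range (algebraMap k₀ K'')) := by
      rintro y ⟨y', hy', hy⟩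
      have h1 : y' = y := Subtype.ext hy
      rw [← h1]
      exact hy'
    have hLE : ∀ y ∈ E, y ∈ L := fun y hy =>
      ⟨algebraMap E K'' ⟨y, hy⟩, (adjoin E (Set.range (algebraMap k₀ K''))).algebraMap_mem _, rfl⟩
    have hLk : ∀ y : k, algebraMap k k' y ∈ L := by
      intro y
      have hy : y ∈ (adjoin F (Set.range (algebraMap k₀ k))).toSubfield := by
        rw [hk]
        trivial
      have h1 : (adjoin F (Set.range (algebraMap k₀ k))).toSubfield ≤ L.comap (algebraMap k k') := by
        rw [adjoin_toSubfield, Subfield.closure_le]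
        rintro _ (⟨c, rfl⟩ | ⟨c, rfl⟩)
        · change algebraMap k k' (algebraMap F k c) ∈ L
          rw [← hst]
          exact hLE _ (E.algebraMap_mem c)
        · exact ⟨algebraMap k₀ K'' c, subset_adjoin E _ ⟨c, rfl⟩, rfl⟩
      exact h1 hy
    have hLK : K''.toSubfield ≤ L := by
      rw [← hsad, adjoin_toSubfield, Subfield.closure_le]
      rintro _ (⟨c, rfl⟩ | ⟨i, rfl⟩)
      · exact hLk c
      · exact hLE _ (subset_adjoin F _ ⟨i, rfl⟩)
    exact hL0 ⟨z, hz⟩ (hLK hz)
  have hfree' : ∀ {n : ℕ} {x : Fin n → k₀}, AlgebraicIndependent F₀ x →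
      AlgebraicIndependent E (algebraMap k₀ K'' ∘ x) := by
    intro n x hx
    have h1 : AlgebraicIndependent F (algebraMap k₀ k ∘ x) := hfree hx
    have h2 : AlgebraicIndependent F (fun i => algebraMap k k' (algebraMap k₀ k (x i))) :=
      h1.map' (f := IsScalarTower.toAlgHom F k k') (algebraMap k k').injective
    have h3 := indep_acl (ind_range.2 h2)
    have h4 : (algebraMap E k').fieldRange ≤ acl (algebraMap F k').fieldRange := by
      rintro _ ⟨z, rfl⟩
      have h5 : E.toSubfield ≤ acl (algebraMap F k').fieldRange := by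
        change (adjoin F (Set.range s)).toSubfield ≤ _
        rw [adjoin_toSubfield, Subfield.closure_le]
        rintro _ (⟨c, rfl⟩ | ⟨i, rfl⟩)
        · exact le_acl ⟨c, rfl⟩
        · rw [SetLike.mem_coe, mem_acl]
          exact Pool.Agent.TD.isAlgebraic_range_iff.2 (hs i)
      exact h5 z.2
    have h5 : AlgebraicIndependent E (fun i => algebraMap k k' (algebraMap k₀ k (x i))) :=
      ind_range.1 (indep_mono h4 h3)
    have i7 : IsScalarTower E K'' k' := IsScalarTower.of_algebraMap_eq fun _ => rfl
    exact AlgebraicIndependent.of_comp (IsScalarTower.toAlgHom E K'' k') h5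
  refine ⟨E, inferInstance, i1, i2, algebraMap F E, hk₀, fun c => ?_, ?_⟩
  · apply Subtype.ext
    exact hst c
  · intro hA
    have h1 := h E K'' hE1 hgen (fun hx => hfree' hx) _ hA
    apply ha
    have h2 := MvPolynomial.map_aeval a (algebraMap F E) Ψ
    have h3 : MvPolynomial.eval₂Hom ((algebraMap F E).comp (algebraMap F₀ F))
        (fun i => algebraMap F E (a i)) Ψ = 0 := h1
    rw [← h2] at h3
    exact (map_eq_zero _).1 h3

end Pool.Agent.SLG
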