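import Pool.Agent.Helper13.RR.B2

/-!
# Project SLG: good reduction of the members of a linear system, parameters in a larger field of constants
-/

universe u v

namespace Pool.Agent.SLG

open Polynomial UL Pool.Agent.Helper37.UL Pool.Agent.RRW

section

variable {F k C : Type u} [Field F] [Field k] [Algebra F k] [Field C] [Algebra k C]
  [Algebra F C] [IsScalarTower F k C] {T : k} {I : Type v}

/-- values at `a` -/
noncomputable def evC (k : Type u) {C : Type u} [Field k] [Field C] [Algebra k C] {I : Type v}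
    (a : I → C) : MvPolynomial I k →+* C :=
  MvPolynomial.eval₂Hom (algebraMap k C) a

/-- values at `a` in the field of constants -/
noncomputable def evκ {F C : Type u} [Field F] [Field C] {κ : Subfield C} (φ : F →+* κ) {I : Type v}
    (a : I → κ) : MvPolynomial I F →+* κ :=
  MvPolynomial.eval₂Hom φ a

lemma evC_phi {κ : Subfield C} {φ : F →+* κ} (hφ : (algebraMap κ C).comp φ = algebraMap F C)
    {a : I → C} {a' : I → κ} (ha : ∀ i, (a' i : C) = a i) (Q : (MvPolynomial I F)[X]) :
    evC k a (phi T Q) = aeval (algebraMap k C T) (Q.map (evκ φ a')) := by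
  have h1 : (evC k a).comp (phi T) =
      ((aeval (algebraMap k C T) : κ[X] →ₐ[κ] C).toRingHom.comp (mapRingHom (evκ φ a'))) := by
    refine Polynomial.ringHom_ext (fun P => ?_) ?_
    · rw [RingHom.comp_apply, RingHom.comp_apply, coe_mapRingHom, map_C]
      change _ = aeval (algebraMap k C T) (Polynomial.C (evκ φ a' P))
      rw [aeval_C]
      unfold phi
      rw [coe_eval₂RingHom, eval₂_C]
      have h2 : (evC k a).comp (MvPolynomial.map (algebraMap F k)) =
          (algebraMap κ C).comp (evκ φ a') := by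
        refine MvPolynomial.ringHom_ext (fun c => ?_) (fun i => ?_)
        · rw [RingHom.comp_apply, RingHom.comp_apply, MvPolynomial.map_C]
          unfold evC evκ
          rw [MvPolynomial.eval₂Hom_C, MvPolynomial.eval₂Hom_C, ← IsScalarTower.algebraMap_apply,
            ← hφ]
          rfl
        · rw [RingHom.comp_apply, RingHom.comp_apply, MvPolynomial.map_X]
          unfold evC evκ
          rw [MvPolynomial.eval₂Hom_X', MvPolynomial.eval₂Hom_X']
          exact (ha i).symm
      exact congrArg (fun g : MvPolynomial I F →+* C => g P) h2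
    · rw [RingHom.comp_apply, RingHom.comp_apply, coe_mapRingHom, map_X]
      change _ = aeval (algebraMap k C T) (X : κ[X])
      rw [aeval_X]
      unfold phi evC
      rw [coe_eval₂RingHom, eval₂_X, MvPolynomial.eval₂Hom_C]
  exact congrArg (fun g : (MvPolynomial I F)[X] →+* C => g Q) h1

end

section

variable {F k C : Type u} [Field F] [CharZero F] [Field k] [Algebra F k] [Field C] [Algebra k C]
  [Algebra F C] [IsScalarTower F k C] {T : k} {d m : ℕ}

omit [CharZero F] [Algebra F k] [Algebra F C] [IsScalarTower F k C] in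
lemma map_spec_evC (w : Fin (m + 1) → k) (a : Fin (d + 1) × Fin (m + 1) → C) :
    (spec (genc w)).map (evC k a) =
      spec fun i : Fin (d + 1) => ∑ l, a (i, l) * algebraMap k C (w l) := by
  rw [spec_map]
  congr 1
  funext i
  unfold evC genc
  rw [map_sum]
  refine Finset.sum_congr rfl fun l _ => ?_
  rw [map_mul, MvPolynomial.eval₂Hom_X', MvPolynomial.eval₂Hom_C]

/-- **The polynomial of bad values.** -/
theorem exists_bad_C (hk : ∀ x : k, ∃ b : F[X][X], b ≠ 0 ∧
    eval₂ (aeval T : F[X] →ₐ[F] k).toRingHom x b = 0) {w : Fin (m + 1) → k} (hw : w 0 ≠ 0)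
    (hd : 2 ≤ d) : ∃ Δ : (MvPolynomial (Fin (d + 1) × Fin (m + 1)) F)[X], Δ ≠ 0 ∧
    ∀ {κ : Subfield C} {V : ValuationSubring C} (_ : ∀ c ∈ κ, c ∈ V)
      (φ : F →+* κ) (_ : (algebraMap κ C).comp φ = algebraMap F C) {t₀ : κ}
      (_ : V.valuation (algebraMap k C T - t₀) < 1) (a : Fin (d + 1) × Fin (m + 1) → C)
      (a' : Fin (d + 1) × Fin (m + 1) → κ) (_ : ∀ i, (a' i : C) = a i)
      (_ : (Δ.map (evκ φ a')).eval t₀ ≠ 0)
      {θ : Fin d → C} (_ : Function.Injective θ)
      (_ : ∀ j, ∑ i : Fin (d + 1), (∑ l, a (i, l) * algebraMap k C (w l)) * θ j ^ (i : ℕ) = 0),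
      GoodAt V (fun i : Fin (d + 1) => ∑ l, a (i, l) * algebraMap k C (w l)) θ := by
  classical
  obtain ⟨Δ₀, hΔ₀, G, hG⟩ := exists_dvd_phi hk (RR_genc_ne_zero (F := F) hw hd)
  choose b hb hb0 using hk
  let E : Finset k := Finset.univ.image w ∪ G.support.image fun s => G.coeff s
  let h : F[X] := ∏ x ∈ E, (b x).leadingCoeff
  have hh : h ≠ 0 := Finset.prod_ne_zero_iff.2 fun x _ => leadingCoeff_ne_zero.2 (hb x)
  refine ⟨h.map MvPolynomial.C * Δ₀, mul_ne_zero ?_ hΔ₀, ?_⟩
  · exact (Polynomial.map_ne_zero_iff (MvPolynomial.C_injective _ F)).2 hh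
  intro κ V hκV φ hφC t₀ hT a a' ha hbad θ hθ hroot
  have hFκ : ∀ c : F, algebraMap F C c ∈ κ := by
    intro c
    rw [← hφC]
    exact (φ c).2
  have hcomp : (h.map (MvPolynomial.C : F →+* MvPolynomial (Fin (d + 1) × Fin (m + 1)) F)).map
      (evκ φ a') = h.map φ := by
    rw [Polynomial.map_map]
    congr 1
    exact RingHom.ext fun c => MvPolynomial.eval₂Hom_C _ _ c
  rw [Polynomial.map_mul, hcomp, eval_mul] at hbad
  have hval : ∀ q : F[X], algebraMap k C (aeval T q) = aeval (algebraMap k C T) (q.map φ) := by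
    intro q
    rw [aeval_def, aeval_def, eval₂_map, hom_eval₂, hφC, ← IsScalarTower.algebraMap_eq]
  have hhx : ∀ x ∈ E, algebraMap k C x ∈ V := by
    intro x hx
    have h1 : ((b x).leadingCoeff.map φ).eval t₀ ≠ 0 := by
      intro h0
      apply left_ne_zero_of_mul hbad
      simp only [h]
      rw [Polynomial.map_prod, eval_prod]
      exact Finset.prod_eq_zero hx h0
    have hinj : Function.Injective (mapRingHom φ) := Polynomial.map_injective _ φ.injective
    refine mem_of_rel hκV hT (b := (b x).map (mapRingHom φ)) ?_ ?_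
    · rw [eval₂_map]
      have h2 := congrArg (algebraMap k C) (hb0 x)
      rw [hom_eval₂, map_zero] at h2
      rw [← h2]
      congr 1
      refine RingHom.ext fun q => ?_
      exact (hval q).symm
    · rw [leadingCoeff_map_of_injective hinj]
      exact h1
  have haV : ∀ x, a x ∈ V := fun x => by
    rw [← ha x]
    exact hκV _ (a' x).2
  have hcV : ∀ i : Fin (d + 1), ∑ l, a (i, l) * algebraMap k C (w l) ∈ V := by
    intro i
    refine sum_mem fun l _ => ?_
    exact mul_mem (haV _) (hhx _ (Finset.mem_union_left _ (Finset.mem_image_of_mem _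
      (Finset.mem_univ l))))
  have hGV : evC k a G ∈ V := by
    unfold evC
    rw [MvPolynomial.coe_eval₂Hom, MvPolynomial.eval₂_eq]
    refine sum_mem fun s hs => ?_
    refine mul_mem (hhx _ (Finset.mem_union_right _ (Finset.mem_image_of_mem _ hs))) ?_
    refine prod_mem fun x _ => ?_
    exact pow_mem (haV _) _
  refine goodAt_of_RR (charZero_residue hκV hFκ) hd hcV ?_ hθ hroot
  -- the value of the resultant
  have h1 : evC k a (RR d (spec (genc w))) =
      RR d (spec fun i : Fin (d + 1) => ∑ l, a (i, l) * algebraMap k C (w l)) := by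
    rw [← RR_map, map_spec_evC]
  have h2 : V.valuation (evC k a (phi T Δ₀)) = 1 := by
    rw [evC_phi hφC ha]
    exact val_aeval hκV hT (right_ne_zero_of_mul hbad)
  rw [hG, map_mul, map_mul, h1] at h2
  have h3 : V.valuation (RR d (spec fun i : Fin (d + 1) =>
      ∑ l, a (i, l) * algebraMap k C (w l))) ≤ 1 := by
    have h4 : RR d (spec fun i : Fin (d + 1) => ∑ l, a (i, l) * algebraMap k C (w l)) ∈ V := by
      have h5 := RR_map d (spec fun i : Fin (d + 1) => (⟨_, hcV i⟩ : V)) V.subtype
      rw [spec_map] at h5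
      change RR d (spec fun i : Fin (d + 1) => ∑ l, a (i, l) * algebraMap k C (w l)) = _ at h5
      rw [h5]
      exact (RR d (spec fun i : Fin (d + 1) => (⟨_, hcV i⟩ : V))).2
    exact (V.valuation_le_one_iff _).2 h4
  have h4 : V.valuation (evC k a G) ≤ 1 := (V.valuation_le_one_iff _).2 hGV
  refine le_antisymm h3 ?_
  rw [← h2]
  exact mul_le_of_le_one_right' h4

/-- **The relation of the roots.** -/
theorem exists_rel_roots_C (hk : ∀ x : k, ∃ b : F[X][X], b ≠ 0 ∧
    eval₂ (aeval T : F[X] →ₐ[F] k).toRingHom x b = 0) {w : Fin (m + 1) → k} (hw : w 0 ≠ 0) :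
    ∃ R : (MvPolynomial (Fin (d + 1) × Fin (m + 1)) F)[X][X], R ≠ 0 ∧
    ∀ {κ : Subfield C} (φ : F →+* κ) (_ : (algebraMap κ C).comp φ = algebraMap F C)
      (a : Fin (d + 1) × Fin (m + 1) → C)
      (a' : Fin (d + 1) × Fin (m + 1) → κ) (_ : ∀ i, (a' i : C) = a i) {θ : C}
      (_ : ∑ i : Fin (d + 1), (∑ l, a (i, l) * algebraMap k C (w l)) * θ ^ (i : ℕ) = 0),
      eval₂ (aeval (algebraMap k C T) : κ[X] →ₐ[κ] C).toRingHom θ
        (R.map (mapRingHom (evκ φ a'))) = 0 := by
  obtain ⟨R, hR, g, hg⟩ := exists_dvd_map_phi hk (spec_genc_ne_zero (F := F) (d := d) hw)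
  refine ⟨R, hR, fun {κ} φ hφC a a' ha θ hθ => ?_⟩
  have h1 : (R.map (mapRingHom (evκ φ a'))).map (aeval (algebraMap k C T) : κ[X] →ₐ[κ] C).toRingHom =
      (R.map (phi T)).map (evC k a) := by
    rw [Polynomial.map_map, Polynomial.map_map]
    congr 1
    refine RingHom.ext fun Q => ?_
    exact (evC_phi hφC ha Q).symm
  rw [← eval_map, h1, hg, Polynomial.map_mul, eval_mul, map_spec_evC]
  have h2 : eval θ (spec fun i : Fin (d + 1) => ∑ l, a (i, l) * algebraMap k C (w l)) = 0 := by
    rw [← hθ, eval_spec]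
  rw [h2, zero_mul]

end

end Pool.Agent.SLG
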