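import Pool.Agent.Helper13.RR.DX
import Pool.Agent.Helper13.SX.D1
import Pool.Agent.Helper13.HZ.Transport
import Pool.Agent.Helper37.UL.ConstE
import Pool.Agent.Helper10.SLG.Bad

/-!
# Project SLG: bounded data of the members of a linear system, parameters in a larger field of constants
-/

set_option linter.unusedVariables false

universe u

namespace Pool.Agent.SLG

open Polynomial Pool.Agent.Helper91.Sect Pool.Agent.Helper37.UL VC FF IntermediateField
open Pool.Agent.TD Pool.Agent.RRW

/-- **Bounded data of the members of a linear system on a curve.** -/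
theorem exists_dataG {F k C : Type u} [Field F] [CharZero F] [Field k] [Algebra F k] [Field C]
    [Algebra k C] [IsAlgClosed C] [Algebra F C] [IsScalarTower F k C]
    {T : k} (hT : Transcendental F T) {ϑ : k} (hϑ : IsAlgebraic (IntermediateField.adjoin F {T}) ϑ)
    (htop : IntermediateField.adjoin F {T, ϑ} = ⊤)
    {m : ℕ} {w : Fin (m + 1) → k} (hw : w 0 ≠ 0) (d p : ℕ) (hp : 0 < p) (hd : 3 ≤ d) :
    ∃ (D B M : ℕ) (Ψ : MvPolynomial (Fin (d + 1) × Fin (m + 1)) F)
      (Δ : Fin (M + 1) → MvPolynomial (Fin (d + 1) × Fin (m + 1)) F), 0 < B ∧ Ψ ≠ 0 ∧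
      ∀ {κ : Subfield C} (hκcl : ∀ x : C, IsAlgebraic κ x → x ∈ κ)
      (hFκ : ∀ c : F, algebraMap F C c ∈ κ) (htr : Transcendental κ (algebraMap k C T))
      (halg : ∀ x : C, IsAlgebraic (IntermediateField.adjoin κ {algebraMap k C T}) x)
      {a : Fin (d + 1) × Fin (m + 1) → C} (hak : ∀ i, a i ∈ κ)
      (ha : MvPolynomial.aeval a Ψ ≠ 0),
      (∃ l, MvPolynomial.aeval a (Δ l) ≠ 0) ∧
      ∀ {K : Subfield C} (hK : ∀ x ∈ K, x ∈
        IntermediateField.adjoin κ {algebraMap k C T, algebraMap k C ϑ})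
      {cc : Fin (d + 1) → C} {θ : Fin d → C} {z : Fin d → Fin d → C} {α : C}
      (hlev : Lev K p cc θ z α)
      (hroot : ∀ i, ∑ l : Fin (d + 1), (∑ e, a (l, e) * algebraMap k C (w e)) * θ i ^ (l : ℕ) = 0)
      (hin : ∀ V : ValuationSubring C, V ≠ ⊤ → (∀ c ∈ κ, c ∈ V) →
        GoodAt V (fun i => ∑ l, a (i, l) * algebraMap k C (w l)) θ →
        ∀ σ : C ≃+* C, Inert K V σ → ∀ i j, i ≠ j → σ (z i j) = z i j)
      (i j : Fin d) (hij : i ≠ j),
      DataR κ (Subfield.closure ((κ : Set C) ∪ {algebraMap k C T})) (algebraMap k C T) D 0 p B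
        (fun (_ : Fin (0 + 1)) (l : Fin (M + 1)) => MvPolynomial.aeval a (Δ l))
        ![algebraMap k C ϑ, θ i, θ j] (z i j) := by
  have hk0 : CharZero k := charZero_of_injective_algebraMap (algebraMap F k).injective
  have hC0 : CharZero C := charZero_of_injective_algebraMap (algebraMap k C).injective
  -- all elements of `k` are algebraic over `F[T]`
  have hfin : FiniteDimensional (IntermediateField.adjoin F {T}) k := by
    have h1 : IntermediateField.adjoin (IntermediateField.adjoin F {T}) {ϑ} = ⊤ := by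
      have h2 := IntermediateField.adjoin_adjoin_left F ({T} : Set k) {ϑ}
      apply IntermediateField.restrictScalars_injective F
      rw [h2, IntermediateField.restrictScalars_top, ← htop]
      congr 1
    have h2 := IntermediateField.adjoin.finiteDimensional hϑ.isIntegral
    rw [h1] at h2
    exact Module.Finite.equiv (IntermediateField.topEquiv
      (F := IntermediateField.adjoin F {T}) (E := k)).toLinearEquiv
  have hkrel : ∀ x : k, ∃ b : F[X][X], b ≠ 0 ∧
      eval₂ (aeval T : F[X] →ₐ[F] k).toRingHom x b = 0 := fun x =>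
    exists_poly_rel hT (Algebra.IsAlgebraic.isAlgebraic x)
  -- the relation of `ϑ`
  obtain ⟨b, hb, hbϑ⟩ := hkrel ϑ
  obtain ⟨R, hR, hRθ⟩ := exists_rel_roots_C (C := C) (d := d) hkrel hw
  obtain ⟨Δ, hΔ, hΔgood⟩ := exists_bad_C (C := C) hkrel hw (show 2 ≤ d by omega)
  let m' := (∑ i ∈ b.support, (b.coeff i).natDegree) + ∑ i ∈ R.support, (R.coeff i).natDegree
  have hRm : ∀ i, (R.coeff i).natDegree ≤ m' := by
    intro i
    by_cases hi : i ∈ R.support
    · have h1 := Finset.single_le_sum (f := fun i => (R.coeff i).natDegree)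
        (fun i _ => Nat.zero_le _) hi
      exact h1.trans (Nat.le_add_left _ _)
    · rw [notMem_support_iff.1 hi, natDegree_zero]
      exact Nat.zero_le _
  obtain ⟨B, hB0, hB⟩ := SX.data_coreN.{u} 3 (d + b.natDegree + R.natDegree) m' Δ.natDegree p hp
    (by omega)
  refine ⟨d + b.natDegree + R.natDegree, B, Δ.natDegree,
    R.leadingCoeff.leadingCoeff * Δ.leadingCoeff, fun l => Δ.coeff l, hB0,
    mul_ne_zero (leadingCoeff_ne_zero.2 (leadingCoeff_ne_zero.2 hR)) (leadingCoeff_ne_zero.2 hΔ),
    ?_⟩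
  intro κ hκcl hFκ htr halg a hak ha
  let φ : F →+* κ := (algebraMap F C).codRestrict κ.toSubring hFκ
  have hφC : (algebraMap κ C).comp φ = algebraMap F C := rfl
  let a' : Fin (d + 1) × Fin (m + 1) → κ := fun i => ⟨a i, hak i⟩
  have haa : ∀ i, (a' i : C) = a i := fun _ => rfl
  have hev : ∀ P : MvPolynomial (Fin (d + 1) × Fin (m + 1)) F,
      ((evκ φ a' P : κ) : C) = MvPolynomial.aeval a P := by
    intro P
    have h1 : (algebraMap κ C).comp (evκ φ a') =
        ((MvPolynomial.aeval a : MvPolynomial (Fin (d + 1) × Fin (m + 1)) F →ₐ[F] C) :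
          MvPolynomial (Fin (d + 1) × Fin (m + 1)) F →+* C) := by
      refine MvPolynomial.ringHom_ext (fun c => ?_) (fun i => ?_)
      · rw [RingHom.comp_apply]
        unfold evκ
        rw [MvPolynomial.eval₂Hom_C]
        change _ = MvPolynomial.aeval a (MvPolynomial.C c)
        rw [MvPolynomial.aeval_C]
        rfl
      · rw [RingHom.comp_apply]
        unfold evκ
        rw [MvPolynomial.eval₂Hom_X']
        change _ = MvPolynomial.aeval a (MvPolynomial.X i)
        rw [MvPolynomial.aeval_X]
        rfl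
    exact congrArg (fun g : MvPolynomial (Fin (d + 1) × Fin (m + 1)) F →+* C => g P) h1
  rw [map_mul] at ha
  have ha1 := left_ne_zero_of_mul ha
  have ha2 := right_ne_zero_of_mul ha
  refine ⟨⟨⟨Δ.natDegree, Nat.lt_succ_self _⟩, ha2⟩, ?_⟩
  intro K hK cc θ z α hlev hroot hin i j hij
  -- values
  have hval : ∀ q : F[X], algebraMap k C (aeval T q) = aeval (algebraMap k C T) (q.map φ) := by
    intro q
    rw [aeval_def, aeval_def, eval₂_map, hom_eval₂, hφC, ← IsScalarTower.algebraMap_eq]
  have hvalhom : (aeval (algebraMap k C T) : κ[X] →ₐ[κ] C).toRingHom.comp (mapRingHom φ) =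
      (algebraMap k C).comp (aeval T : F[X] →ₐ[F] k).toRingHom := by
    refine RingHom.ext fun q => ?_
    exact (hval q).symm
  have hinj : Function.Injective (mapRingHom φ) := Polynomial.map_injective _ φ.injective
  have hb' : b.map (mapRingHom φ) ≠ 0 := (Polynomial.map_ne_zero_iff hinj).2 hb
  have hbϑ' : eval₂ (aeval (algebraMap k C T) : κ[X] →ₐ[κ] C).toRingHom (algebraMap k C ϑ)
      (b.map (mapRingHom φ)) = 0 := by
    rw [eval₂_map, hvalhom]
    have h2 := congrArg (algebraMap k C) hbϑ
    rw [hom_eval₂, map_zero] at h2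
    exact h2
  have hbm : ∀ i, ((b.map (mapRingHom φ)).coeff i).natDegree ≤ m' := by
    intro i
    rw [coeff_map]
    refine (natDegree_map_le).trans ?_
    by_cases hi : i ∈ b.support
    · have h1 := Finset.single_le_sum (f := fun i => (b.coeff i).natDegree)
        (fun i _ => Nat.zero_le _) hi
      exact h1.trans (Nat.le_add_right _ _)
    · rw [notMem_support_iff.1 hi, natDegree_zero]
      exact Nat.zero_le _
  -- the relation of the roots
  let f : κ[X][X] := R.map (mapRingHom (evκ φ a'))
  have hf0 : f ≠ 0 := by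
    intro h0
    apply ha1
    have h1 : (R.leadingCoeff).map (evκ φ a') = 0 := by
      have h2 := congrArg (fun Q : κ[X][X] => Q.coeff R.natDegree) h0
      simp only [f, coeff_map, coeff_zero] at h2
      exact h2
    have h2 := congrArg (fun Q : κ[X] => Q.coeff R.leadingCoeff.natDegree) h1
    simp only [coeff_map, coeff_zero] at h2
    rw [← hev]
    have h3 : evκ φ a' R.leadingCoeff.leadingCoeff = 0 := h2
    rw [h3]
    rfl
  have hfD : f.natDegree ≤ d + b.natDegree + R.natDegree := by
    refine (natDegree_map_le).trans ?_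
    omega
  have hfm : ∀ i, (f.coeff i).natDegree ≤ m' := by
    intro i
    simp only [f]
    rw [coeff_map]
    exact (natDegree_map_le).trans (hRm i)
  have hfθ : ∀ j, eval₂ (aeval (algebraMap k C T) : κ[X] →ₐ[κ] C).toRingHom (θ j) f = 0 :=
    fun j => hRθ φ hφC a a' haa (hroot j)
  -- the bad polynomial
  let bad : κ[X] := Δ.map (evκ φ a')
  have hbad0 : bad ≠ 0 := by
    intro h0
    apply ha2
    have h2 := congrArg (fun Q : κ[X] => Q.coeff Δ.natDegree) h0
    simp only [bad, coeff_map, coeff_zero] at h2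
    rw [← hev]
    have h3 : evκ φ a' Δ.leadingCoeff = 0 := h2
    rw [h3]
    rfl
  have hbadd : bad.natDegree ≤ Δ.natDegree := natDegree_map_le
  have hbadc : (fun (_ : Fin (0 + 1)) (l : Fin (Δ.natDegree + 1)) =>
      MvPolynomial.aeval a (Δ.coeff l)) =
      fun (_ : Fin (0 + 1)) (l : Fin (Δ.natDegree + 1)) => ((bad.coeff l : κ) : C) := by
    funext _ l
    simp only [bad, coeff_map]
    rw [hev]
  rw [hbadc]
  -- the field
  have hkE : ∀ x ∈ K, x ∈ IntermediateField.adjoin κ (insert (algebraMap k C T)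
      (Set.range ![algebraMap k C ϑ, θ i, θ j])) := by
    intro x hx
    have h1 : IntermediateField.adjoin κ {algebraMap k C T, algebraMap k C ϑ} ≤
        IntermediateField.adjoin κ (insert (algebraMap k C T)
          (Set.range ![algebraMap k C ϑ, θ i, θ j])) := by
      rw [IntermediateField.adjoin_le_iff]
      rintro y (hy | hy)
      · rw [hy]
        exact IntermediateField.subset_adjoin κ _ (Or.inl rfl)
      · rw [Set.mem_singleton_iff.mp hy]
        exact IntermediateField.subset_adjoin κ _ (Or.inr ⟨0, rfl⟩)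
    exact h1 (hK x hx)
  refine hB κ (isAlgClosed_of hκcl) htr halg (rt := ![algebraMap k C ϑ, θ i, θ j])
    (f := ![b.map (mapRingHom φ), f, f]) ?_ ?_ ?_ ?_ (hlev.ne i j hij) ?_ hbad0 hbadd ?_
  · intro l
    fin_cases l
    · exact hb'
    · exact hf0
    · exact hf0
  · intro l
    fin_cases l
    · exact (natDegree_map_le).trans (by omega)
    · exact hfD
    · exact hfD
  · intro l
    fin_cases l
    · exact hbm
    · exact hfm
    · exact hfm
  · intro l
    fin_cases l
    · exact hbϑ'
    · exact hfθ i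
    · exact hfθ j
  · obtain ⟨ψ, hψ, hz⟩ := hlev.pow
    rw [hz i j hij]
    refine sum_mem fun r _ => sum_mem fun s _ => ?_
    refine mul_mem (hkE _ (hψ r s)) (mul_mem (pow_mem ?_ _) (pow_mem ?_ _))
    · exact IntermediateField.subset_adjoin κ _ (Or.inr ⟨1, rfl⟩)
    · exact IntermediateField.subset_adjoin κ _ (Or.inr ⟨2, rfl⟩)
  · intro V hκV t₀ ht₀ hbt σ hσ
    have hgood : GoodAt V (fun i => ∑ l, a (i, l) * algebraMap k C (w l)) θ :=
      hΔgood hκV φ hφC ht₀ a a' haa hbt hlev.inj hroot
    have hσ' : Inert K V σ := ⟨fun x hx => hσ.fix _ (hkE x hx), hσ.dec, hσ.res⟩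
    by_cases hV : V = ⊤
    · -- the trivial valuation ring
      have h1 := hσ.res (z i j) (by rw [hV]; trivial)
      have h2 : σ (z i j) - z i j = 0 := by
        by_contra hne
        subst hV
        have h3 : (⊤ : ValuationSubring C).valuation (σ (z i j) - z i j)⁻¹ ≤ 1 :=
          ((⊤ : ValuationSubring C).valuation_le_one_iff _).2 (by trivial)
        rw [map_inv₀] at h3
        have h4 : (⊤ : ValuationSubring C).valuation (σ (z i j) - z i j) ≠ 0 := by simpa using hne
        exact absurd h1 (not_lt.2 ((inv_le_one₀ (zero_lt_iff.2 h4)).1 h3))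
      exact sub_eq_zero.1 h2
    · exact hin V hV hκV hgood σ hσ' i j hij

end Pool.Agent.SLG
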