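import Pool.Agent.Helper10.RR.ThetaW
import Pool.Agent.Helper10.RR.WReal
import Pool.Agent.Helper10.SLS.Gen
import Pool.Agent.Helper13.OPN.A

/-!
# Project SLG: no level structure and 2-transitivity for the generic curve, in a field
-/

universe u

namespace Pool.Agent.SLG

open Polynomial Pool.Agent.Helper37.UL UL TH RR Pool.Agent.OPN Pool.Agent.SLS

/-- specialising valuation rings -/
theorem exists_W_K {S : Type u} [Field S] [CharZero S] {K : Subfield S} {I : Type} {x : I → S}
    (hx : AlgebraicIndependent K x) (n : I → ℤ) :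
    ∃ W : ValuationSubring S, ResZero W ∧ (∀ c ∈ K, c ∈ W) ∧
      (∀ i, x i ∈ W) ∧ ∀ i, W.valuation (x i - n i) < 1 := by
  obtain ⟨W, hW1, hW2⟩ := exists_W hx (fun i => (n i : K))
  have hc : ∀ c ∈ K, c ∈ W := fun c hc => hW1 ⟨c, hc⟩
  have hval : ∀ i, W.valuation (x i - n i) < 1 := by
    intro i
    have := hW2 i
    rw [map_intCast] at this
    exact this
  refine ⟨W, ?_, hc, fun i => ?_, hval⟩
  · intro m hm
    have h2 : (m : S) ≠ 0 := Nat.cast_ne_zero.mpr hm
    have h3 := hc (m : S) (natCast_mem K m)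
    have h4 := hc (m : S)⁻¹ (K.inv_mem (natCast_mem K m))
    have h5 := (W.valuation_le_one_iff _).2 h3
    have h6 := (W.valuation_le_one_iff _).2 h4
    rw [map_inv₀] at h6
    have h7 : W.valuation (m : S) ≠ 0 := (Valuation.ne_zero_iff _).mpr h2
    exact le_antisymm h5 ((inv_le_one₀ (zero_lt_iff.2 h7)).1 h6)
  · have h1 : x i - n i ∈ W := (W.valuation_le_one_iff _).1 (hval i).le
    have h2 : ((n i : ℤ) : S) ∈ W := intCast_mem W (n i)
    have h3 := W.add_mem _ _ h1 h2
    rwa [sub_add_cancel] at h3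

/-- **No level one structure for the generic curve with coefficients in a linear system.** -/
theorem no_lev_S {S : Type u} [Field S] [IsAlgClosed S] [CharZero S] {m d : ℕ} {κ' : Subfield S}
    {T' q' : S} {x : Fin (d + 1) × Fin (m + 1) → S}
    (hxT : AlgebraicIndependent κ' (Sum.elim x ![T'])) {w' : Fin (m + 1) → S}
    (hsW : SplitW κ' T' q' w') (hw0' : w' 0 ≠ 0)
    (hw1' : ∀ e : Fin (m + 1), (e : ℕ) = 1 → w' e = T' * w' 0)
    {p ν : ℕ} (hp : 0 < p) (hν1 : 1 ≤ ν) (hν : ¬ p ∣ ν) (hd : 3 ≤ d) (hm : 1 ≤ m)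
    {L' : Subfield S} (hL : ∀ A : Subfield S, κ' ≤ A →
      (∀ y : S, IsAlgebraic A y → y ∈ A) →
      (∀ (i : Fin (d + 1)) (e : Fin (m + 1)), e ≠ 0 → x (i, e) ∈ A) →
      L' ≤ Subfield.closure ((A : Set S) ∪ Set.range x))
    {θ : Fin d → S} {z : Fin d → Fin d → S} {α : S}
    (hl : Lev (Subfield.closure ((gen L' ![T'] : Set S) ∪ {q'})) p
      (fun i : Fin (d + 1) =>
        (∑ e : Fin (m + 1), x (Fin.last d, e) * w' e) ^ (ν - 1) *
          ∑ e : Fin (m + 1), x (i, e) * w' e)
      θ z α) : False := by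
  classical
  have hTx := AlgebraicIndependent.sumElim_iff.1 hxT
  have hT' : AlgebraicIndependent κ' ![T'] := hTx.1
  have hx0 : AlgebraicIndependent κ' x := by
    have h1 := hxT.comp (Sum.inl : _ → (Fin (d + 1) × Fin (m + 1)) ⊕ Fin 1) Sum.inl_injective
    exact h1
  obtain ⟨W, hW, hWc, hWx, hWv⟩ := exists_W_K hx0 n2
  set y := ynew x with hy
  have hTtr : Transcendental κ' T' := hT'.transcendental 0
  have hyT : AlgebraicIndependent (Algebra.adjoin κ' (Set.range ![T'])) y := by
    have h1 : AlgebraicIndependent (IntermediateField.adjoin κ' (Set.range ![T'])) x :=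
      IntermediateField.algebraicIndependent_adjoin_iff.2 hTx.2
    exact IntermediateField.algebraicIndependent_adjoin_iff.1 (algInd_ynew hd h1)
  have hyT2 : AlgebraicIndependent κ' (Sum.elim y ![T']) :=
    AlgebraicIndependent.sumElim_iff.2 ⟨hT', hyT⟩
  -- rearrange
  let Q := {q : Fin (d + 1) × Fin (m + 1) // q ≠ qd d m}
  let φ : Fin 2 ⊕ Q → (Fin (d + 1) × Fin (m + 1)) ⊕ Fin 1 :=
    Sum.elim ![Sum.inr 0, Sum.inl (qd d m)] (fun q => Sum.inl q.1)
  have hφ : Function.Injective φ := by
    rintro (i | q) (j | q') hij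
    · fin_cases i <;> fin_cases j <;> simp [φ] at hij ⊢
    · fin_cases i
      · simp [φ] at hij
      · simp only [φ, Sum.elim_inl, Sum.elim_inr] at hij
        exact absurd (Sum.inl_injective hij).symm q'.2
    · fin_cases j
      · simp [φ] at hij
      · simp only [φ, Sum.elim_inl, Sum.elim_inr] at hij
        exact absurd (Sum.inl_injective hij) q.2
    · simp only [φ, Sum.elim_inr] at hij
      rw [Subtype.ext (Sum.inl_injective hij)]
  have hyqd : y (qd d m) = x (qd d m) := by
    rw [hy]
    unfold ynew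
    rw [if_neg (qd_ne_qe hd)]
  have h3 : AlgebraicIndependent κ' (Sum.elim ![T', x (qd d m)] (fun q : Q => y q.1)) := by
    have h4 := hyT2.comp φ hφ
    have e : Sum.elim y ![T'] ∘ φ =
        Sum.elim ![T', x (qd d m)] (fun q : Q => y q.1) := by
      funext i
      rcases i with i | q
      · fin_cases i
        · rfl
        · exact hyqd
      · rfl
    rwa [e] at h4
  have h4 := (AlgebraicIndependent.sumElim_iff.1 h3).2
  have h5 : AlgebraicIndependent (IntermediateField.adjoin κ' (Set.range fun q : Q => y q.1))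
      ![T', x (qd d m)] := IntermediateField.algebraicIndependent_adjoin_iff.2 h4
  let A0 : Subfield S := (IntermediateField.adjoin κ' (Set.range fun q : Q => y q.1)).toSubfield
  have hA0 : AlgebraicIndependent A0 ![T', x (qd d m)] := h5
  let A : Subfield S := acl A0
  have hA : AlgebraicIndependent A ![T', x (qd d m)] := indep_acl hA0
  have hyA : ∀ q, q ≠ qd d m → y q ∈ A := fun q hq =>
    le_acl (IntermediateField.subset_adjoin κ' _ ⟨⟨q, hq⟩, rfl⟩)
  have hκA : κ' ≤ A := fun c hc => le_acl (IntermediateField.algebraMap_mem _ (⟨c, hc⟩ : κ'))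
  have hxA : ∀ (i : Fin (d + 1)) (e : Fin (m + 1)), e ≠ 0 → x (i, e) ∈ A := by
    intro i e he
    have h6 := hyA (i, e) (fun h => he (congrArg Prod.snd h))
    have h7 : y (i, e) = x (i, e) := by
      rw [hy]; unfold ynew; rw [if_neg (fun h => he (congrArg Prod.snd h))]
    rwa [h7] at h6
  have hκW : ∀ x ∈ κ', x ∈ W := hWc
  set v : S := x (qd d m) with hvdef
  have hv0 : v ≠ 0 := hx0.ne_zero (qd d m)
  have hq' : SplitAt κ' ((![T', v] : Fin 2 → S) 0) (q') := hsW.splitAt
  -- the field
  let K1 : Subfield S := Subfield.closure ((gen A ![T', v] : Set S) ∪ {q'})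
  have hgK1 : gen A ![T', v] ≤ K1 := fun x hx => Subfield.subset_closure (Or.inl hx)
  have hxmem : ∀ q, x q ∈ gen A ![T', v] := by
    intro q
    have hu : v ∈ gen A ![T', v] := gen_mem (τ := ![T', v]) 1
    by_cases hq : q = qd d m
    · rw [hq]; exact hu
    · have h7 : y q ∈ gen A ![T', v] := le_gen (hyA q hq)
      by_cases hq' : q = qe d m
      · have h8 : y q = x q + v := by
          rw [hy]; unfold ynew; rw [if_pos hq']
        have h9 : x q = y q - v := by rw [h8]; ring
        rw [h9]
        exact sub_mem h7 hu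
      · have h8 : y q = x q := by
          rw [hy]; unfold ynew; rw [if_neg hq']
        rwa [h8] at h7
  have hTK1 : T' ∈ K1 := hgK1 (gen_mem (τ := ![T', v]) 0)
  have hwK1 : ∀ e, w' e ∈ K1 := fun e =>
    hsW.mem hTtr ((hκA.trans le_gen).trans hgK1) hTK1 (Subfield.subset_closure (Or.inr rfl)) e
  let c : Fin (d + 1) → S := fun l => (∑ e, x (l, e) * w' e) / w' 0
  have hc : ∀ l, c l ∈ K1 := fun l =>
    K1.div_mem (K1.sum_mem fun e _ => K1.mul_mem (hgK1 (hxmem _)) (hwK1 e)) (hwK1 0)
  -- the terms
  let yy : Fin (d + 1) → Fin (m + 1) → S := fun l e =>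
    if (l, e) = qd d m then 0 else y (l, e)
  let s : S := T' / v
  let g : Fin (m + 1) → S := fun e => if (e : ℕ) = 0 then v⁻¹ else if (e : ℕ) = 1 then s else
    w' e / w' 0 / v
  let t0 : Fin (d + 1) → S := fun l => if (l : ℕ) = d then 1 else if (l : ℕ) = d - 1 then -1 else 0
  have hzero : ∀ (e : Fin (m + 1)), (e : ℕ) = 0 ↔ e = 0 := fun e =>
    ⟨fun h => Fin.ext h, fun h => by rw [h]; rfl⟩
  have hcsum : ∀ l, c l / v = t0 l + ∑ e, yy l e * g e := by
    intro l
    have h1 : ∀ e, x (l, e) * w' e / w' 0 / v = (if e = 0 then t0 l else 0) + yy l e * g e := by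
      intro e
      simp only [yy, g]
      by_cases h0 : e = 0
      · subst h0
        have e0 : ((0 : Fin (m + 1)) : ℕ) = 0 := rfl
        rw [if_pos (rfl : (0 : Fin (m + 1)) = 0), if_pos e0]
        simp only [t0]
        by_cases hl1 : (l : ℕ) = d
        · have h2 : (l, (0 : Fin (m + 1))) = qd d m := by
            have : l = Fin.last d := Fin.ext hl1
            rw [this]; rfl
          rw [if_pos hl1, if_pos h2, h2]
          change v * w' 0 / w' 0 / v = _
          field_simp
          ring
        · have h2 : (l, (0 : Fin (m + 1))) ≠ qd d m := by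
            intro h
            have := congrArg (fun q => (q.1 : ℕ)) h
            exact hl1 (by simpa [qd] using this)
          rw [if_neg hl1, if_neg h2]
          by_cases hl2 : (l : ℕ) = d - 1
          · have h3 : (l, (0 : Fin (m + 1))) = qe d m := by
              have : l = ⟨d - 1, by omega⟩ := Fin.ext hl2
              rw [this]; rfl
            rw [if_pos hl2, hy]
            unfold ynew
            rw [if_pos h3]
            change x (l, 0) * w' 0 / w' 0 / v = -1 + (x (l, 0) + v) * v⁻¹
            field_simp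
            ring
          · have h3 : (l, (0 : Fin (m + 1))) ≠ qe d m := by
              intro h
              have := congrArg (fun q => (q.1 : ℕ)) h
              exact hl2 (by simpa [qe] using this)
            rw [if_neg hl2, hy]
            unfold ynew
            rw [if_neg h3]
            field_simp
            ring
      · have h0' : (e : ℕ) ≠ 0 := fun h => h0 ((hzero e).1 h)
        have h2 : (l, e) ≠ qd d m := by
          intro h
          exact h0 (congrArg Prod.snd h)
        have h3 : (l, e) ≠ qe d m := by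
          intro h
          exact h0 (congrArg Prod.snd h)
        rw [if_neg h0, if_neg h2, if_neg h0', hy, zero_add]
        unfold ynew
        rw [if_neg h3]
        by_cases h1 : (e : ℕ) = 1
        · rw [if_pos h1, hw1' e h1]
          simp only [s]
          field_simp
        · rw [if_neg h1]
          field_simp
    change (∑ e, x (l, e) * w' e) / w' 0 / v = _
    rw [Finset.sum_div, Finset.sum_div, Finset.sum_congr rfl (fun e _ => h1 e),
      Finset.sum_add_distrib, Finset.sum_ite_eq', if_pos (Finset.mem_univ _)]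
  have htgt : ∀ l : Fin (d + 1), tgt d s (l : ℕ) = t0 l + ∑ e, (n2 (l, e) : S) * g e := by
    intro l
    have h1 : ∑ e, (n2 (l, e) : S) * g e = if (l : ℕ) = 0 then -s else 0 := by
      rw [Finset.sum_eq_single (⟨1, by omega⟩ : Fin (m + 1))]
      · simp only [g, n2]
        have hl0 : l = 0 ↔ (l : ℕ) = 0 := by
          constructor
          · rintro rfl; rfl
          · intro h; exact Fin.ext h
        simp only [hl0]
        by_cases h3 : (l : ℕ) = 0
        · simp [h3]
        · simp [h3]
      · intro e _ he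
        have h2 : (e : ℕ) ≠ 1 := fun h => he (Fin.ext h)
        have h3 : (n2 (l, e) : ℤ) = 0 := by
          unfold n2
          rw [if_neg h2]
        rw [h3, Int.cast_zero, zero_mul]
      · intro h
        exact absurd (Finset.mem_univ _) h
    rw [h1, tgt]
    simp only [t0]
    by_cases h1 : (l : ℕ) = d
    · have h2 : (l : ℕ) ≠ 0 := by omega
      rw [if_pos h1, if_pos h1, if_neg h2, add_zero]
    · by_cases h2 : (l : ℕ) = d - 1
      · have h3 : (l : ℕ) ≠ 0 := by omega
        rw [if_neg h1, if_pos h2, if_neg h1, if_pos h2, if_neg h3, add_zero]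
      · rw [if_neg h1, if_neg h2, if_neg h1, if_neg h2, zero_add]
  have hyyA : ∀ l e, yy l e ∈ A := by
    intro l e
    simp only [yy]
    split_ifs with h1
    · exact A.zero_mem
    · exact hyA _ h1
  have hyyW : ∀ l e, W.valuation (yy l e - (n2 (l, e) : S)) < 1 := by
    intro l e
    simp only [yy]
    by_cases h1 : (l, e) = qd d m
    · rw [if_pos h1, h1]
      have h2 : (n2 (qd d m) : ℤ) = 0 := by
        unfold n2
        rw [if_neg (by simp [qd])]
      rw [h2, Int.cast_zero, sub_self, map_zero]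
      exact zero_lt_one
    · rw [if_neg h1, hy]
      unfold ynew
      by_cases h2 : (l, e) = qe d m
      · rw [if_pos h2, h2]
        have e1 := hWv (qe d m)
        have e2 := hWv (qd d m)
        have e3 : (n2 (qd d m) : ℤ) = 0 := by
          unfold n2
          rw [if_neg (by simp [qd])]
        rw [e3, Int.cast_zero, sub_zero] at e2
        have e4 : x (qe d m) + x (qd d m) - (n2 (qe d m) : S) =
            (x (qe d m) - (n2 (qe d m) : S)) + x (qd d m) := by ring
        rw [e4]
        exact lt_of_le_of_lt (Valuation.map_add _ _ _) (max_lt e1 e2)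
      · rw [if_neg h2]
        exact hWv (l, e)
  have hval : ∀ V : ValuationSubring S, (∀ x ∈ A, x ∈ W → x ∈ V) →
      (∀ x ∈ A, W.valuation x < 1 → V.valuation x < V.valuation ((![T', v] : Fin 2 → S) 1)) →
      V.valuation ((![T', v] : Fin 2 → S) 1) < 1 →
      (![T', v] : Fin 2 → S) 0 / (![T', v] : Fin 2 → S) 1 ∈ V → V.valuation (w' 0) = 1 ∧
      ∀ l : Fin (d + 1), V.valuation (c l / (![T', v] : Fin 2 → S) 1 -
        tgt d ((![T', v] : Fin 2 → S) 0 / (![T', v] : Fin 2 → S) 1) (l : ℕ)) < 1 := by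
    intro V hV1 hV2' hV3' hV4'
    have hV2 : ∀ x ∈ A, W.valuation x < 1 → V.valuation x < V.valuation v := hV2'
    have hV3 : V.valuation v < 1 := hV3'
    have hV4 : s ∈ V := hV4'
    have hs1 : V.valuation s ≤ 1 := (V.valuation_le_one_iff _).2 hV4
    have hTV : V.valuation T' < 1 := by
      have h1 : T' = s * v := (div_mul_cancel₀ _ hv0).symm
      rw [h1, map_mul]
      exact lt_of_le_of_lt (mul_le_of_le_one_left' hs1) hV3
    obtain ⟨hwV, hw0V⟩ := hsW.val V (fun x hx => hV1 x (hκA hx) (hκW x hx)) hTV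
    refine ⟨hw0V, fun l => ?_⟩
    have hvv : V.valuation v ≠ 0 := (_root_.map_ne_zero _).2 hv0
    have hv1 : 1 ≤ (V.valuation v)⁻¹ := (one_le_inv₀ (zero_lt_iff.2 hvv)).2 hV3.le
    have hgV : ∀ e, V.valuation (g e) ≤ (V.valuation v)⁻¹ := by
      intro e
      simp only [g]
      split_ifs
      · rw [map_inv₀]
      · exact hs1.trans hv1
      · rw [map_div₀, map_div₀, hw0V, div_one, div_eq_mul_inv]
        exact mul_le_of_le_one_left' ((V.valuation_le_one_iff _).2 (hwV e))
    change V.valuation (c l / v - tgt d s (l : ℕ)) < 1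
    rw [hcsum, htgt, add_sub_add_left_eq_sub, ← Finset.sum_sub_distrib]
    refine Valuation.map_sum_lt' _ zero_lt_one fun e _ => ?_
    rw [← sub_mul, map_mul]
    have h1 : V.valuation (yy l e - (n2 (l, e) : S)) < V.valuation v :=
      hV2 _ (sub_mem (hyyA l e) (intCast_mem _ _)) (hyyW l e)
    calc V.valuation (yy l e - (n2 (l, e) : S)) * V.valuation (g e)
        ≤ V.valuation (yy l e - (n2 (l, e) : S)) * (V.valuation v)⁻¹ :=
          mul_le_mul_right (hgV e) _
      _ < V.valuation v * (V.valuation v)⁻¹ := by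
          exact mul_lt_mul_of_pos_right h1 (lt_of_lt_of_le zero_lt_one hv1)
      _ = 1 := mul_inv_cancel₀ hvv
  refine no_lev_gen hA hp hν1 hν hd c (w0 := w' 0) W hW hκA hκW hq' (hwK1 0) hc hval (θ := θ) (z := z)
    (α := α) ?_
  have h6 : ∀ i : Fin (d + 1), (∑ e : Fin (m + 1), x (i, e) * w' e) = w' 0 * c i := by
    intro i
    simp only [c]
    rw [mul_div_cancel₀ _ hw0']
  simp only [h6] at hl
  refine hl.mono ?_
  have hL' : L' ≤ gen A ![T', v] := by
    refine (hL A hκA (fun y hy => acl_closed hy) hxA).trans ?_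
    rw [Subfield.closure_le, Set.union_subset_iff]
    refine ⟨fun y hy => le_gen hy, ?_⟩
    rintro _ ⟨q, rfl⟩
    exact hxmem q
  have hgen : gen L' ![T'] ≤ gen A ![T', v] := by
    unfold gen at hL' ⊢
    rw [Subfield.closure_le, Set.union_subset_iff]
    refine ⟨hL', ?_⟩
    rintro _ ⟨i, rfl⟩
    refine Subfield.subset_closure (Or.inr ⟨0, ?_⟩)
    fin_cases i
    rfl
  exact Subfield.closure_mono (Set.union_subset_union_left _ hgen)

/-- **2-transitivity for the generic curve with coefficients in a linear system.** -/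
theorem two_trans_S {S : Type u} [Field S] [IsAlgClosed S] [CharZero S] {m d : ℕ}
    {κ' A : Subfield S} (hκA : κ' ≤ A) {T' q' : S} (hT : Transcendental A T')
    {x : Fin (d + 1) × Fin (m + 1) → S} (hx0 : AlgebraicIndependent κ' x) (hxA : ∀ q, x q ∈ A)
    {w' : Fin (m + 1) → S} (hsW : SplitW κ' T' q' w') (hw0' : w' 0 ≠ 0)
    (hw1' : ∀ e : Fin (m + 1), (e : ℕ) = 1 → w' e = T' * w' 0)
    (hd : 3 ≤ d) (hm : 1 ≤ m) {θ : Fin d → S} (hθ : Function.Injective θ)
    (hlead0 : ∑ e : Fin (m + 1), x (Fin.last d, e) * w' e ≠ 0)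
    (hroot : ∀ i, ∑ l : Fin (d + 1), (∑ e : Fin (m + 1), x (l, e) * w' e) * θ i ^ (l : ℕ) = 0)
    {i j i' j' : Fin d} (hij : i ≠ j) (hij' : i' ≠ j') :
    ∃ σ : S ≃+* S, (∀ y ∈ gen A ![T'], σ y = y) ∧ σ q' = q' ∧ σ (θ i) = θ i' ∧ σ (θ j) = θ j' := by
  classical
  have hdiv : AlgebraicIndependent κ' (ydivW x) :=
    algInd_div hx0 (qd d m) (fun i => (i.2 : ℕ) ≠ 1)
  obtain ⟨W, hW, hWc, hWx, hWv⟩ := exists_W_K hdiv n3
  set v : S := x (qd d m) with hvdef
  have hv0 : v ≠ 0 := hx0.ne_zero (qd d m)
  have hvA : v ∈ A := hxA _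
  have hyv : ydivW x (qd d m) = v := by
    unfold ydivW
    rw [if_pos rfl]
  have hvW : W.valuation v < 1 := by
    have h1 := hWv (qd d m)
    rw [hyv] at h1
    have h2 : n3 (qd d m) = 0 := by
      unfold n3
      rw [if_pos rfl]
    rwa [h2, Int.cast_zero, sub_zero] at h1
  let s : S := T' / v
  have hsv : s * v = T' := div_mul_cancel₀ _ hv0
  -- `s` is transcendental
  have hτ : AlgebraicIndependent A (![s] : Fin 1 → S) := by
    rw [algebraicIndependent_unique_type_iff]
    intro h2
    apply hT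
    rw [← hsv]
    exact IsAlgebraic.mul h2 (isAlgebraic_algebraMap (⟨v, hvA⟩ : A))
  have hκW : ∀ x ∈ κ', x ∈ W := hWc
  have hq' : SplitAt κ' ((![s] : Fin 1 → S) 0 * v) (q') := by
    have h2 : (![s] : Fin 1 → S) 0 * v = T' := hsv
    rw [h2]
    exact hsW.splitAt
  have hTtr : Transcendental κ' T' := by
    let _ : Algebra κ' A := (Subfield.inclusion hκA).toAlgebra
    have : IsScalarTower κ' A S := IsScalarTower.of_algebraMap_eq fun _ => rfl
    exact hT.restrictScalars (Subfield.inclusion hκA).injective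
  -- the coefficients
  let K1 : Subfield S := Subfield.closure ((gen A (![s] : Fin 1 → S) : Set S) ∪
    {q'})
  have hAK1 : A ≤ K1 := fun x hx => Subfield.subset_closure (Or.inl (le_gen hx))
  have hsK1 : s ∈ K1 := Subfield.subset_closure (Or.inl (gen_mem (τ := (![s] : Fin 1 → S)) 0))
  have hTK1 : T' ∈ K1 := by
    rw [← hsv]
    exact K1.mul_mem hsK1 (hAK1 hvA)
  have hwK1 : ∀ e, w' e ∈ K1 := fun e =>
    hsW.mem hTtr (hκA.trans hAK1) hTK1 (Subfield.subset_closure (Or.inr rfl)) e
  let f : Fin (d + 1) → S := fun l => ∑ e, x (l, e) * w' e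
  let c : Fin (d + 1) → S := fun l => f l / (w' 0 * v)
  have hwv : w' 0 * v ≠ 0 := mul_ne_zero hw0' hv0
  -- the terms
  let y : Fin (d + 1) → Fin (m + 1) → S := fun l e => if (e : ℕ) = 1 then x (l, e) else x (l, e) / v
  let g : Fin (m + 1) → S := fun e => if (e : ℕ) = 0 then 1 else if (e : ℕ) = 1 then s else
    w' e / w' 0
  have hcsum : ∀ l, c l = ∑ e, y l e * g e := by
    intro l
    change (∑ e, x (l, e) * w' e) / (w' 0 * v) = _
    rw [Finset.sum_div]
    refine Finset.sum_congr rfl fun e _ => ?_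
    simp only [y, g]
    by_cases h0 : (e : ℕ) = 0
    · have h1 : e = 0 := Fin.ext h0
      subst h1
      rw [if_neg (by simp), if_pos (by simp)]
      field_simp
    · by_cases h1 : (e : ℕ) = 1
      · rw [if_pos h1, if_neg h0, if_pos h1, hw1' e h1]
        simp only [s]
        field_simp
      · rw [if_neg h1, if_neg h0, if_neg h1]
        field_simp
  have hyA : ∀ l e, y l e ∈ A := by
    intro l e
    simp only [y]
    split_ifs
    · exact hxA _
    · exact div_mem (hxA _) hvA
  have hyW : ∀ l e, W.valuation (y l e - (n1 (l, e) : S)) < 1 := by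
    intro l e
    by_cases h2 : (l, e) = qd d m
    · have h3 : (e : ℕ) = 0 := by
        have := congrArg (fun q => (q.2 : ℕ)) h2
        simpa [qd] using this
      have h4 : (l : ℕ) = d := by
        have := congrArg (fun q => (q.1 : ℕ)) h2
        simpa [qd] using this
      have h5 : y l e = 1 := by
        simp only [y]
        rw [if_neg (by omega), h2]
        exact div_self hv0
      have h6 : (n1 (l, e) : ℤ) = 1 := by
        unfold n1
        rw [if_pos h3, if_pos h4]
      rw [h5, h6, Int.cast_one, sub_self, map_zero]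
      exact zero_lt_one
    · have h3 := hWv (l, e)
      unfold n3 ydivW at h3
      rw [if_neg h2, if_neg h2] at h3
      by_cases h4 : (e : ℕ) = 1
      · rw [if_neg (by simpa using h4)] at h3
        simp only [y]
        rw [if_pos h4]
        exact h3
      · rw [if_pos (by simpa using h4)] at h3
        simp only [y]
        rw [if_neg h4]
        exact h3
  have htgt : ∀ l : Fin (d + 1), tgt d s (l : ℕ) = ∑ e, (n1 (l, e) : S) * g e := by
    intro l
    rw [tgt]
    have hne : (0 : Fin (m + 1)) ≠ ⟨1, by omega⟩ := by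
      intro h
      simpa using congrArg Fin.val h
    rw [← Finset.add_sum_erase Finset.univ _ (Finset.mem_univ (0 : Fin (m + 1))),
      ← Finset.add_sum_erase _ _ (Finset.mem_erase.2 ⟨hne.symm, Finset.mem_univ
        (⟨1, by omega⟩ : Fin (m + 1))⟩), Finset.sum_eq_zero, add_zero]
    · simp only [g, n1]
      have hl0 : l = 0 ↔ (l : ℕ) = 0 := by
        constructor
        · rintro rfl; rfl
        · intro h; exact Fin.ext h
      simp only [hl0]
      by_cases h1 : (l : ℕ) = d
      · have h2 : (l : ℕ) ≠ 0 := by omega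
        simp [h1]
        omega
      · by_cases h2 : (l : ℕ) = d - 1
        · have h3 : (l : ℕ) ≠ 0 := by omega
          simp [h2]
          omega
        · by_cases h3 : (l : ℕ) = 0
          · have e1 : ¬ (0 = d) := by omega
            have e2 : ¬ (0 = d - 1) := by omega
            simp [h3, e1, e2]
          · simp [h1, h2, h3]
    · intro e he
      have h1 : (e : ℕ) ≠ 0 := by
        intro h
        exact (Finset.mem_erase.1 (Finset.mem_of_mem_erase he)).1 (Fin.ext h)
      have h2 : (e : ℕ) ≠ 1 := by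
        intro h
        exact (Finset.mem_erase.1 he).1 (Fin.ext h)
      have h3 : (n1 (l, e) : ℤ) = 0 := by
        unfold n1
        rw [if_neg h1, if_neg h2]
      rw [h3, Int.cast_zero, zero_mul]
  have hc : ∀ l, c l ∈ K1 := by
    intro l
    refine K1.div_mem (K1.sum_mem fun e _ => K1.mul_mem (hAK1 (hxA _)) (hwK1 e))
      (K1.mul_mem (hwK1 0) (hAK1 hvA))
  have hval : ∀ V : ValuationSubring S, (∀ x ∈ A, x ∈ W → x ∈ V) →
      (∀ x ∈ A, W.valuation x < 1 → V.valuation x < 1) → (![s] : Fin 1 → S) 0 ∈ V →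
      ∀ l : Fin (d + 1), V.valuation (c l - tgt d ((![s] : Fin 1 → S) 0) (l : ℕ)) < 1 := by
    intro V hV1 hV2 hV3 l
    have hsV : s ∈ V := hV3
    have hTV : V.valuation T' < 1 := by
      rw [← hsv, map_mul]
      exact lt_of_le_of_lt (mul_le_of_le_one_left' ((V.valuation_le_one_iff _).2 hsV))
        (hV2 v hvA hvW)
    obtain ⟨hwV, hw0V⟩ := hsW.val V (fun x hx => hV1 x (hκA hx) (hκW x hx)) hTV
    have hgV : ∀ e, V.valuation (g e) ≤ 1 := by
      intro e
      simp only [g]
      split_ifs
      · rw [map_one]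
      · exact (V.valuation_le_one_iff _).2 hsV
      · rw [map_div₀, hw0V, div_one]
        exact (V.valuation_le_one_iff _).2 (hwV e)
    change V.valuation (c l - tgt d s (l : ℕ)) < 1
    rw [hcsum, htgt, ← Finset.sum_sub_distrib]
    refine Valuation.map_sum_lt' _ zero_lt_one fun e _ => ?_
    rw [← sub_mul, map_mul]
    refine lt_of_le_of_lt (mul_le_of_le_one_right' (hgV e)) (hV2 _ ?_ (hyW l e))
    exact sub_mem (hyA l e) (intCast_mem _ _)
  have hlead : c (Fin.last d) ≠ 0 := div_ne_zero hlead0 hwv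
  have hroot' : ∀ i, ∑ l, c l * θ i ^ (l : ℕ) = 0 := by
    intro i
    have h1 : ∀ l : Fin (d + 1), c l * θ i ^ (l : ℕ) =
        ((∑ e : Fin (m + 1), x (l, e) * w' e) * θ i ^ (l : ℕ)) / (w' 0 * v) := by
      intro l
      simp only [c, f]
      ring
    rw [Finset.sum_congr rfl (fun l _ => h1 l), ← Finset.sum_div, hroot i, zero_div]
  obtain ⟨σ, hσ1, hσ2, hσ3, hσ4⟩ := two_trans_gen hτ hd c W hW hκA hκW hvA hvW hq' hc hlead hval
    hθ hroot' hij hij'
  refine ⟨σ, fun y hy => hσ1 y ?_, hσ4, hσ2, hσ3⟩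
  have hle : gen A ![T'] ≤ gen A (![s] : Fin 1 → S) := by
    unfold gen
    rw [Subfield.closure_le, Set.union_subset_iff]
    refine ⟨fun a ha => Subfield.subset_closure (Or.inl ha), ?_⟩
    rintro _ ⟨i, rfl⟩
    have h3 : (![T'] : Fin 1 → S) i = s * v := by
      rw [hsv]
      fin_cases i
      rfl
    rw [h3]
    refine mul_mem (Subfield.subset_closure (Or.inr ⟨0, rfl⟩))
      (Subfield.subset_closure (Or.inl hvA))
  exact hle hy

end Pool.Agent.SLG
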