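import Pool.Agent.Helper13.RR.NW
import Pool.Agent.Helper13.SX.FW
import Pool.Agent.Helper10.SLG.Theta

/-!
# Project SLG: there is no family of level structures with bounded data and generic parameters, uniform version
-/

universe u v w

namespace Pool.Agent.SLG

open Polynomial Pool.Agent.Helper37.UL UL TH Pool.Agent.TD Pool.Agent.RRW Pool.Agent.OPN

/-- There is no family of level one structures with bounded data which is not thin: the case of a field
which contains the roots of unity. -/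
theorem no_family_mu_G {J : Type v} {F C : Type u} [Field F] [CharZero F] [Field C] [Algebra F C]
    [IsAlgClosed C] [CharZero C] {U : Ultrafilter J} {S : Type w} [Field S] {π : (J → C) →+* S}
    (h : UP U π) {m D d p ν B M : ℕ} (hp : 0 < p) (hν1 : 1 ≤ ν) (hν : ¬ p ∣ ν) (hd : 3 ≤ d)
    (hm : 1 ≤ m) {vv : J → Fin (d + 1) × Fin (m + 1) → F}
    {Fs κs : Subfield C} (hFs : Fs ≤ (algebraMap F C).fieldRange)
    (hκs : ∀ c : C, c ∈ κs ↔ IsAlgebraic Fs c)
    (hx : AlgebraicIndependent (Fs.map (UP.cst π)) (xg π fun j i => algebraMap F C (vv j i)))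
    {F' κ : Subfield C} {ζ : C}
    (hF' : F' = Subfield.closure (((algebraMap F C).fieldRange : Set C) ∪ {ζ}))
    (hζ : ζ ^ p = 1) (hμ : ∀ ξ : C, ξ ^ p = 1 → ξ ∈ F') {T : C}
    (hκ0 : ∀ x : C, x ∈ κ ↔ IsAlgebraic F' x) (hT : AlgebraicIndependent κ ![T])
    (hWR : ∀ y ∈ h.gsub (algebraMap F C).fieldRange,
      IsAlgebraic (gn (Fs.map (UP.cst π)) (xg π fun j i => algebraMap F C (vv j i))) y →
      ∀ A : Subfield S, κs.map (UP.cst π) ≤ A → (∀ x : S, IsAlgebraic A x → x ∈ A) →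
      (∀ (i : Fin (d + 1)) (e : Fin (m + 1)), e ≠ 0 →
        xg π (fun j i => algebraMap F C (vv j i)) (i, e) ∈ A) →
      y ∈ Subfield.closure ((A : Set S) ∪ Set.range (xg π (fun j i => algebraMap F C (vv j i)))))
    {q : C} {w : Fin (m + 1) → C} (hq : SplitW κs T q w) (hw : w ⟨1, by omega⟩ = T * w 0)
    (hqa : IsAlgebraic (gen Fs ![T]) q)
    (hwk : ∀ l, w l ∈ Subfield.closure ((gen Fs ![T] : Set C) ∪ {q}))
    (halg0 : ∀ x : C, IsAlgebraic (gen F' ![T]) x)
    {θ : J → Fin d → C} {z : J → Fin d → Fin d → C} {α : J → C}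
    (hlev0 : ∀ a, Lev (Subfield.closure ((gen F' ![T] : Set C) ∪ {q})) p
      (fun i : Fin (d + 1) =>
        (∑ e : Fin (m + 1), algebraMap F C (vv a (Fin.last d, e)) * w e) ^ (ν - 1) *
          ∑ e : Fin (m + 1), algebraMap F C (vv a (i, e)) * w e)
      (θ a) (z a) (α a))
    {Δ : Fin (M + 1) → MvPolynomial (Fin (d + 1) × Fin (m + 1)) C}
    (hΔ : ∀ l s, (Δ l).coeff s ∈ Fs)
    (hΔ0 : ∀ a, ∃ l, MvPolynomial.eval (fun x => algebraMap F C (vv a x)) (Δ l) ≠ 0)
    (hdata : ∀ a i j, i ≠ j → DataR κ (gen κ ![T]) T D 0 p B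
      (fun (_ : Fin (0 + 1)) (l : Fin (M + 1)) =>
        MvPolynomial.eval (fun x => algebraMap F C (vv a x)) (Δ l))
      ![q, θ a i, θ a j] (z a i j)) : False := by
  classical
  have hSa : IsAlgClosed S := h.isAlgClosed
  have hS0 : CharZero S := h.charZero
  let xx : J → Fin (d + 1) × Fin (m + 1) → C := fun j q => algebraMap F C (vv j q)
  let u : Fin 0 → C := ![]
  have hg0 : gen F' u = F' := gen_zero
  have hκ : ∀ x : C, x ∈ κ ↔ IsAlgebraic (gen F' u) x := by
    rw [hg0]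
    exact hκ0
  have halg : ∀ x : C, IsAlgebraic (gen (gen F' u) ![T]) x := by
    rw [hg0]
    exact halg0
  have hlev : ∀ a, Lev (Subfield.closure ((gen (gen F' u) ![T] : Set C) ∪ {q})) p
      (fun i : Fin (d + 1) =>
        (∑ e : Fin (m + 1), algebraMap F C (vv a (Fin.last d, e)) * w e) ^ (ν - 1) *
          ∑ e : Fin (m + 1), algebraMap F C (vv a (i, e)) * w e)
      (θ a) (z a) (α a) := by
    rw [hg0]
    exact hlev0
  have hTu : AlgebraicIndependent F' (Fin.cons T u : Fin (0 + 1) → C) := by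
    have h1 : F' ≤ κ := fun x hx => (hκ0 x).2 (isAlgebraic_algebraMap (⟨x, hx⟩ : F'))
    exact indep_mono h1 hT
  -- notation
  let FC : Subfield C := (algebraMap F C).fieldRange
  have hFCF' : FC ≤ F' := by
    rw [hF']
    exact fun x hx => Subfield.subset_closure (Or.inl hx)
  have hζF' : ζ ∈ F' := hμ ζ hζ
  have hguκ : gen F' u ≤ κ := fun x hx =>
    (hκ x).mpr (isAlgebraic_algebraMap (⟨x, hx⟩ : gen F' u))
  have hF'κ : F' ≤ κ := le_gen.trans hguκ
  have hκcl : ∀ x : C, IsAlgebraic κ x → x ∈ κ := by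
    intro x hx
    have h0 : κ = (algebraicClosure (gen F' u) C).toSubfield := by
      ext y
      rw [hκ]
      exact mem_algebraicClosure_iff.symm
    rw [hκ]
    have h1 : IsAlgebraic (algebraicClosure (gen F' u) C) x := by
      rw [h0] at hx
      exact hx
    exact (isIntegral_trans (R := gen F' u) (A := algebraicClosure (gen F' u) C) _
      h1.isIntegral).isAlgebraic
  let G0 : Subfield S := Fs.map (UP.cst π)
  let L0 : Subfield S := gn G0 (xg π xx)
  let L : Subfield S := h.gsub FC ⊓ acl L0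
  let L' : Subfield S := Subfield.closure ((L : Set S) ∪ {UP.cst π ζ})
  let t' : S := UP.cst π T
  let τ1 : Fin 1 → S := fun i => UP.cst π ((![T] : Fin 1 → C) i)
  have hτ1 : τ1 = ![t'] := by
    funext i
    fin_cases i
    rfl
  let κ' := h.gsub κ
  let q' : S := UP.cst π q
  let u' : Fin 0 → S := fun i => UP.cst π (u i)
  let L1 := gen L' u'
  let Kst₁ := h.gsub (gen (gen F' u) ![T])
  let Kg₁ := h.gsub (gen κ ![T])
  let k₁ := gen L1 τ1
  let Kst := h.gsub (Subfield.closure ((gen (gen F' u) ![T] : Set C) ∪ {q}))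
  let Kg := h.gsub (Subfield.closure ((gen κ ![T] : Set C) ∪ {q}))
  let k0 := Subfield.closure ((k₁ : Set S) ∪ {q'})
  let θ' : Fin d → S := fun i => π fun a => θ a i
  let z' : Fin d → Fin d → S := fun i j => π fun a => z a i j
  let g' : Fin (d + 1) → S := fun i => π fun a =>
    ∑ e : Fin (m + 1), algebraMap F C (vv a (i, e)) * w e
  let f' : Fin (d + 1) → S := fun i => g' (Fin.last d) ^ (ν - 1) * g' i
  have hlev' : Lev Kst p f' θ' z' (π α) := by
    have h1 := h.lev hlev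
    have h2 : (fun i : Fin (d + 1) => π fun a =>
        (∑ e : Fin (m + 1), algebraMap F C (vv a (Fin.last d, e)) * w e) ^ (ν - 1) *
          ∑ e : Fin (m + 1), algebraMap F C (vv a (i, e)) * w e) = f' := by
      funext i
      have h3 : (fun a =>
          (∑ e : Fin (m + 1), algebraMap F C (vv a (Fin.last d, e)) * w e) ^ (ν - 1) *
          ∑ e : Fin (m + 1), algebraMap F C (vv a (i, e)) * w e) =
        (fun a => ∑ e : Fin (m + 1), algebraMap F C (vv a (Fin.last d, e)) * w e) ^ (ν - 1) *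
          (fun a => ∑ e : Fin (m + 1), algebraMap F C (vv a (i, e)) * w e) := rfl
      rw [h3, map_mul, map_pow]
    rw [h2] at h1
    exact h1
  have hg'0 : g' (Fin.last d) ≠ 0 := by
    intro h0
    apply hlev'.lead
    change g' (Fin.last d) ^ (ν - 1) * g' (Fin.last d) = 0
    rw [h0, mul_zero]
  have hrootg : ∀ i, ∑ l : Fin (d + 1), g' l * θ' i ^ (l : ℕ) = 0 := by
    intro i
    have h1 := hlev'.root i
    have h2 : ∑ l : Fin (d + 1), f' l * θ' i ^ (l : ℕ) =
        g' (Fin.last d) ^ (ν - 1) * ∑ l : Fin (d + 1), g' l * θ' i ^ (l : ℕ) := by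
      rw [Finset.mul_sum]
      exact Finset.sum_congr rfl fun l _ => mul_assoc _ _ _
    rw [h2] at h1
    exact (mul_eq_zero.1 h1).resolve_left (pow_ne_zero _ hg'0)
  have hvec : ∀ i j, (fun l => π fun a => (![q, θ a i, θ a j] : Fin 3 → C) l) =
      ![q', θ' i, θ' j] := by
    intro i j
    funext l
    fin_cases l <;> rfl
  let b' : Fin (M + 1) → S := fun l => π fun a => MvPolynomial.eval (xx a) (Δ l)
  have hdata' : ∀ i j, i ≠ j → DataR κ' Kg₁ t' D 0 p B
      (fun (_ : Fin (0 + 1)) (l : Fin (M + 1)) => b' l) ![q', θ' i, θ' j] (z' i j) := by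
    intro i j hij
    have h1 := up_data h (w := fun a => z a i j) fun a => hdata a i j hij
    rw [hvec] at h1
    exact h1
  have hB : 0 < B := by
    have h01 : (⟨0, by omega⟩ : Fin d) ≠ ⟨1, by omega⟩ := by
      intro h1
      have := congrArg Fin.val h1
      simp at this
    obtain ⟨g, r, G, c, c', hg, hr, hG, hgG, hA, hR, hc, hc', hχ, -⟩ := hdata' _ _ h01
    by_contra hB
    have hB0 : B = 0 := by omega
    subst hB0
    simp at hχ
  -- elementary facts
  have hFC : ∀ j q, xx j q ∈ FC := fun j q => ⟨vv j q, rfl⟩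
  have hLFC : L ≤ h.gsub FC := inf_le_left
  have hL0FC : L0 ≤ h.gsub FC := by
    change Subfield.closure _ ≤ _
    rw [Subfield.closure_le, Set.union_subset_iff]
    constructor
    · rintro _ ⟨c, hc, rfl⟩
      exact h.const_mem_gsub.mpr (hFs hc)
    · rintro _ ⟨q, rfl⟩
      exact ⟨_, fun j => hFC j q, rfl⟩
  have hL0L : L0 ≤ L := le_inf hL0FC le_acl
  have hL'F' : L' ≤ h.gsub F' := by
    change Subfield.closure _ ≤ _
    rw [Subfield.closure_le, Set.union_subset_iff]
    constructor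
    · exact fun x hx => h.gsub_mono hFCF' (hLFC hx)
    · rintro _ hx
      rw [Set.mem_singleton_iff.mp hx]
      exact h.const_mem_gsub.mpr hζF'
  have hLL' : L ≤ L' := fun x hx => Subfield.subset_closure (Or.inl hx)
  have hL'κ' : L' ≤ κ' := fun x hx => h.gsub_mono hF'κ (hL'F' hx)
  have hxL : ∀ q, xg π xx q ∈ L := fun q => hL0L (Subfield.subset_closure (Or.inr ⟨q, rfl⟩))
  have hFsL : ∀ x ∈ Fs, UP.cst π x ∈ L := fun x hx =>
    hL0L (Subfield.subset_closure (Or.inl ⟨x, hx, rfl⟩))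
  have hFsL' : ∀ x ∈ Fs, UP.cst π x ∈ L' := fun x hx => hLL' (hFsL x hx)
  have hLrel : ∀ x ∈ h.gsub FC, IsAlgebraic L x → x ∈ L := fun x hx hx' =>
    ⟨hx, acl_closed (isAlgebraic_mono inf_le_right hx')⟩
  have hL'rel : ∀ x ∈ h.gsub F', IsAlgebraic L' x → x ∈ L' := by
    intro x hx hx'
    have hζalg : IsAlgebraic L (UP.cst π ζ) := by
      apply IsAlgebraic.of_pow hp
      rw [← map_pow, hζ, map_one]
      exact isAlgebraic_one
    refine Pool.Agent.TD.relClosed_adjoin hLFC hLrel hζalg x ?_ hx'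
    have hζalg' : IsAlgebraic FC ζ := by
      apply IsAlgebraic.of_pow hp
      rw [hζ]
      exact isAlgebraic_one
    rw [← Pool.Agent.TD.gsub_adjoin h hζalg', ← hF']
    exact hx
  have hL1 : L' ≤ L1 := le_gen
  have hL1gu : L1 ≤ h.gsub (gen F' u) := (gen_mono_left hL'F').trans h.gen_le
  have hL1κ' : L1 ≤ κ' := hL1gu.trans (h.gsub_mono hguκ)
  have hk₁k0 : k₁ ≤ k0 := fun x hx => Subfield.subset_closure (Or.inl hx)
  have htk0 : t' ∈ k0 := hk₁k0 (gen_mem (τ := τ1) 0)
  have hL1k0 : L1 ≤ k0 := le_gen.trans hk₁k0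
  have hL'k0 : L' ≤ k0 := hL1.trans hL1k0
  have hk₁Kst₁ : k₁ ≤ Kst₁ := (gen_mono_left hL1gu).trans h.gen_le
  have hqF' : IsAlgebraic (gen (gen F' u) ![T]) q := by
    rw [hg0]
    exact isAlgebraic_mono (gen_mono_left (hFs.trans hFCF')) hqa
  have hqκ : IsAlgebraic (gen κ ![T]) q := isAlgebraic_mono (gen_mono_left hguκ) hqF'
  have hKsteq : Kst = Subfield.closure ((Kst₁ : Set S) ∪ {q'}) := Pool.Agent.TD.gsub_adjoin h hqF'
  have hKgeq : Kg = Subfield.closure ((Kg₁ : Set S) ∪ {q'}) := Pool.Agent.TD.gsub_adjoin h hqκ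
  have hk0Kst : k0 ≤ Kst := by
    rw [hKsteq]
    exact Subfield.closure_mono (Set.union_subset_union_left _ hk₁Kst₁)
  have hFsL1 : Fs ≤ L1.comap (UP.cst π) := fun x hx => hL1 (hFsL' x hx)
  have hgk₁ : gen Fs ![T] ≤ k₁.comap (UP.cst π) := by
    conv_lhs => unfold gen
    rw [Subfield.closure_le, Set.union_subset_iff]
    refine ⟨?_, ?_⟩
    · intro x hx
      exact le_gen (hFsL1 hx)
    · rintro _ ⟨i, rfl⟩
      exact gen_mem (τ := τ1) i
  have hqk₁ : IsAlgebraic k₁ q' := by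
    exact Pool.Agent.HZ.alg_map (UP.cst π) (L := gen Fs ![T])
      (L' := k₁) (fun x hx => hgk₁ hx) hqa
  let τ' : Fin (0 + 1) → S := fun i => UP.cst π ((Fin.cons T u : Fin (0 + 1) → C) i)
  have hτ' : τ' = Fin.cons t' u' := by
    funext i
    refine Fin.cases ?_ (fun i => ?_) i
    · rfl
    · rfl
  have hk₁eq : k₁ = gen L' τ' := by
    change gen (gen L' u') τ1 = _
    rw [hτ1, hτ', gen_cons]
  have hKst₁eq : Kst₁ = h.gsub (gen F' (Fin.cons T u : Fin (0 + 1) → C)) := by
    change h.gsub _ = _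
    rw [gen_cons]
  have hrel₁ : ∀ x ∈ Kst₁, IsAlgebraic k₁ x → x ∈ k₁ := by
    intro x hx hx'
    rw [hKst₁eq] at hx
    rw [hk₁eq] at hx' ⊢
    have h1 : x ∈ gen (h.gsub F') τ' :=
      h.gen_relAlgClosed hTu hx (isAlgebraic_mono (gen_mono_left hL'F') hx')
    exact gauss_n hL'F' hL'rel (h.algInd hTu) h1 hx'
  have hrel : ∀ x ∈ Kst, IsAlgebraic k0 x → x ∈ k0 := by
    intro x hx hx'
    rw [hKsteq] at hx
    exact Pool.Agent.TD.relClosed_adjoin hk₁Kst₁ hrel₁ hqk₁ x hx hx'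
  have hrel'₁ : ∀ x ∈ Kg₁, IsAlgebraic (gen κ' τ1) x → x ∈ gen κ' τ1 := fun x hx hx' =>
    h.gen_relAlgClosed hT hx hx'
  let B₁ := Subfield.closure ((gen κ' τ1 : Set S) ∪ {q'})
  have hrel' : ∀ x ∈ Kg, IsAlgebraic B₁ x → x ∈ B₁ := by
    intro x hx hx'
    rw [hKgeq] at hx
    exact Pool.Agent.TD.relClosed_adjoin (K := gen κ' τ1) (M := Kg₁) h.gen_le hrel'₁
      (isAlgebraic_mono (gen_mono_left hL1κ') hqk₁) x hx hx'
  have hκ' : ∀ x : S, IsAlgebraic κ' x → x ∈ κ' := fun x hx => h.gsub_algClosed hκcl hx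
  have hgenle : gen (gen F' u) ![T] ≤ gen κ ![T] := gen_mono_left hguκ
  have hKstKg : Kst ≤ Kg := h.gsub_mono
    (Subfield.closure_mono (Set.union_subset_union_left _ hgenle))
  have hκ'Kg : κ' ≤ Kg₁ := h.gsub_mono le_gen
  have htKg : t' ∈ Kg₁ := h.const_mem_gsub.mpr (gen_mem (τ := ![T]) 0)
  have hKg₁Kg : Kg₁ ≤ Kg := by
    rw [hKgeq]
    exact fun x hx => Subfield.subset_closure (Or.inl hx)
  have hqKg : q' ∈ Kg := by
    rw [hKgeq]
    exact Subfield.subset_closure (Or.inr rfl)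
  have ht' : Transcendental κ' t' := by
    have := (h.algInd hT).transcendental 0
    exact this
  have hμ' : ∀ ξ : S, ξ ^ p = 1 → ξ ∈ k0 := by
    intro ξ hξ
    apply hL'k0
    obtain ⟨g, rfl⟩ := h.surj ξ
    have h1 : ∀ᶠ a in (U : Filter J), g a ^ p = 1 := by
      have h2 : π (g ^ p) = π 1 := by rw [map_pow, hξ, map_one]
      exact (h.eq_iff _ _).mp h2
    apply hL'rel
    · rw [h.coe_mem_gsub]
      filter_upwards [h1] with a ha
      exact hμ _ ha
    · apply IsAlgebraic.of_pow hp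
      rw [hξ]
      exact isAlgebraic_one
  have hgg : ∀ i, g' i = ∑ l : Fin (m + 1), xg π xx (i, l) * UP.cst π (w l) := by
    intro i
    have h1 : (fun a => ∑ e : Fin (m + 1), algebraMap F C (vv a (i, e)) * w e) =
        ∑ e : Fin (m + 1), (fun a => xx a (i, e)) * (fun _ => w e) := by
      funext a
      simp only [Finset.sum_apply, Pi.mul_apply, xx]
    change π _ = _
    rw [h1, map_sum]
    apply Finset.sum_congr rfl
    intro l _
    rw [map_mul]
    rfl
  have hwk0 : ∀ l, UP.cst π (w l) ∈ k0 := by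
    intro l
    have h1 : Subfield.closure ((gen Fs ![T] : Set C) ∪ {q}) ≤
        k0.comap (UP.cst π) := by
      rw [Subfield.closure_le, Set.union_subset_iff]
      refine ⟨fun x hx => hk₁k0 (hgk₁ hx), ?_⟩
      rintro _ rfl
      exact Subfield.subset_closure (Or.inr rfl)
    exact h1 (hwk l)
  have hg'k0 : ∀ i, g' i ∈ k0 := by
    intro i
    rw [hgg]
    apply Subfield.sum_mem
    intro l _
    exact Subfield.mul_mem _ (hL'k0 (hLL' (hxL _))) (hwk0 l)
  have hf'k0 : ∀ i, f' i ∈ k0 := fun i =>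
    Subfield.mul_mem _ (Subfield.pow_mem _ (hg'k0 _) _) (hg'k0 _)
  have hθalg : ∀ i, IsAlgebraic k0 (θ' i) := fun i =>
    isAlgebraic_of_root (c := f') (fun j => ⟨⟨_, hf'k0 j⟩, rfl⟩) hlev'.lead (hlev'.root i)
  have hαalg : IsAlgebraic k0 (π α) := by
    apply IsAlgebraic.of_pow hp
    rw [hlev'.alpha]
    exact isAlgebraic_algebraMap (⟨_, hf'k0 _⟩ : k0)
  -- the algebraic closure of `L1`
  let κ0 : Subfield S := (algebraicClosure L1 S).toSubfield
  have hmemκ0 : ∀ x : S, x ∈ κ0 ↔ IsAlgebraic L1 x := fun x => mem_algebraicClosure_iff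
  have hκ0cl : ∀ x : S, IsAlgebraic κ0 x → x ∈ κ0 := by
    intro x hx
    rw [hmemκ0]
    have h1 : IsAlgebraic (algebraicClosure L1 S) x := hx
    exact (isIntegral_trans (R := L1) (A := algebraicClosure L1 S) _
      h1.isIntegral).isAlgebraic
  have hκ0κ' : κ0 ≤ κ' := fun x hx => hκ' x (isAlgebraic_mono hL1κ' ((hmemκ0 x).mp hx))
  have hκ0k0 : ∀ x ∈ κ0, IsAlgebraic k0 x := fun x hx =>
    isAlgebraic_mono hL1k0 ((hmemκ0 x).mp hx)
  have hL1κ0 : L1 ≤ κ0 := fun x hx => (hmemκ0 _).mpr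
    (isAlgebraic_algebraMap (⟨x, hx⟩ : L1))
  have hb'κ0 : ∀ l, b' l ∈ κ0 := by
    intro l
    change (π fun a => MvPolynomial.eval (xx a) (Δ l)) ∈ κ0
    rw [pi_eval]
    refine Subfield.sum_mem _ fun s _ => Subfield.mul_mem _ (hL1κ0 (hFsL1 (hΔ l s))) ?_
    exact Subfield.prod_mem _ fun i _ => Subfield.pow_mem _ (hL1κ0 (hL1 (hLL' (hxL i)))) _
  have hb'0 : ∃ l, b' l ≠ 0 := by
    by_contra hcon
    push Not at hcon
    have h1 : ∀ᶠ a in (U : Filter J), ∀ l, MvPolynomial.eval (xx a) (Δ l) = 0 := by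
      rw [Filter.eventually_all]
      intro l
      exact (h.eq0 _).mp (hcon l)
    obtain ⟨a, ha⟩ := h1.exists
    obtain ⟨l, hl⟩ := hΔ0 a
    exact hl (ha l)
  have hk₁t : k₁ ≤ (IntermediateField.adjoin κ0 {t'}).toSubfield := by
    change gen L1 τ1 ≤ _
    conv_lhs => unfold gen
    rw [Subfield.closure_le, Set.union_subset_iff]
    refine ⟨fun x hx => (IntermediateField.adjoin κ0 {t'}).algebraMap_mem ⟨x, hL1κ0 hx⟩, ?_⟩
    rintro _ ⟨i, rfl⟩
    fin_cases i
    exact IntermediateField.mem_adjoin_simple_self κ0 t'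
  have hqκ0 : IsAlgebraic (IntermediateField.adjoin κ0 {t'}) q' := isAlgebraic_mono hk₁t hqk₁
  have hθκ0 : ∀ i, IsAlgebraic (IntermediateField.adjoin κ0 {t'}) (θ' i) := by
    intro i
    let A : IntermediateField (IntermediateField.adjoin κ0 {t'}) S :=
      algebraicClosure (IntermediateField.adjoin κ0 {t'}) S
    have hkA : k0 ≤ A.toSubfield := by
      change Subfield.closure _ ≤ _
      rw [Subfield.closure_le, Set.union_subset_iff]
      refine ⟨fun x hx => A.algebraMap_mem ⟨x, hk₁t hx⟩, ?_⟩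
      rintro _ rfl
      exact mem_algebraicClosure_iff.2 hqκ0
    have h2 : IsAlgebraic A (θ' i) := isAlgebraic_mono (K := k0) (K' := A.toSubfield) hkA
      (isAlgebraic_of_root (c := f') (fun j => ⟨⟨_, hf'k0 j⟩, rfl⟩) hlev'.lead (hlev'.root i))
    exact (isIntegral_trans (R := IntermediateField.adjoin κ0 {t'}) (A := A) _
      h2.isIntegral).isAlgebraic
  -- factorisation
  have hz : ∀ i j, i ≠ j → ∃ e g : S, IsAlgebraic k0 e ∧
      g ∈ Subfield.closure ((Kg : Set S) ∪ Set.range θ') ∧ z' i j = e * g := by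
    intro i j hij
    obtain ⟨e, g, he, hg, heg⟩ := Pool.Agent.SX.exists_factorW hκ0κ' hκ0cl hκ' ht' hκ'Kg htKg hκ0k0 htk0 hp hB
      hb'κ0 hb'0 (ψ := (Fin.cons q' θ' : Fin (d + 1) → S)) (fun i =>
        Fin.cases hqκ0 (fun i => hθκ0 i) i) (v := ![q', θ' i, θ' j]) (fun l => by
          fin_cases l
          · exact ⟨0, rfl⟩
          · exact ⟨i.succ, rfl⟩
          · exact ⟨j.succ, rfl⟩) (hlev'.ne i j hij) (hdata' i j hij)
    refine ⟨e, g, he, ?_, heg⟩
    have h1 : Subfield.closure ((Kg₁ : Set S) ∪ Set.range (Fin.cons q' θ' : Fin (d + 1) → S)) ≤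
        Subfield.closure ((Kg : Set S) ∪ Set.range θ') := by
      rw [Subfield.closure_le]
      rintro x (hx | ⟨i, rfl⟩)
      · exact Subfield.subset_closure (Or.inl (hKg₁Kg hx))
      · refine Fin.cases ?_ (fun i => ?_) i
        · exact Subfield.subset_closure (Or.inl hqKg)
        · exact Subfield.subset_closure (Or.inr ⟨i, rfl⟩)
    exact h1 hg
  -- the small constants
  let κ₂ : Subfield S := κs.map (UP.cst π)
  have hκsκ : κs ≤ κ := by
    intro c hc
    exact (hκ0 c).2 (isAlgebraic_mono (hFs.trans hFCF') ((hκs c).1 hc))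
  have hκ₂κ' : κ₂ ≤ κ' := by
    rintro _ ⟨c, hc, rfl⟩
    exact h.const_mem_gsub.mpr (hκsκ hc)
  have hκ₂acl : κ₂ ≤ acl G0 := by
    rintro _ ⟨c, hc, rfl⟩
    exact mem_acl.2 (Pool.Agent.HZ.alg_map (UP.cst π) (L := Fs) (L' := G0)
      (fun x hx => ⟨x, hx, rfl⟩) ((hκs c).1 hc))
  have hx0 : AlgebraicIndependent κ₂ (xg π xx) := indep_mono hκ₂acl (indep_acl hx)
  have hxκ' : ∀ p, xg π xx p ∈ κ' := fun p => hL'κ' (hLL' (hxL p))
  have hxT : AlgebraicIndependent κ₂ (Sum.elim (xg π xx) ![t']) := by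
    have h1 : AlgebraicIndependent (IntermediateField.adjoin κ₂ (Set.range (xg π xx))) ![t'] := by
      have h2 : (IntermediateField.adjoin κ₂ (Set.range (xg π xx))).toSubfield ≤ κ' := by
        rw [IntermediateField.adjoin_toSubfield, Subfield.closure_le, Set.union_subset_iff]
        refine ⟨?_, ?_⟩
        · rintro _ ⟨c, rfl⟩
          exact hκ₂κ' c.2
        · rintro _ ⟨p, rfl⟩
          exact hxκ' p
      have h3 : AlgebraicIndependent κ' ![t'] := by
        rw [algebraicIndependent_unique_type_iff]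
        exact ht'
      exact indep_mono h2 h3
    have h2 : AlgebraicIndependent κ₂ (Sum.elim ![t'] (xg π xx)) :=
      AlgebraicIndependent.sumElim_iff.2
        ⟨hx0, IntermediateField.algebraicIndependent_adjoin_iff.1 h1⟩
    have h3 := h2.comp (Sum.swap : (Fin (d + 1) × Fin (m + 1)) ⊕ Fin 1 →
      Fin 1 ⊕ (Fin (d + 1) × Fin (m + 1))) Sum.swap_leftInverse.injective
    have h4 : Sum.elim ![t'] (xg π xx) ∘ (Sum.swap : (Fin (d + 1) × Fin (m + 1)) ⊕ Fin 1 →
        Fin 1 ⊕ (Fin (d + 1) × Fin (m + 1))) = Sum.elim (xg π xx) ![t'] := by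
      funext i
      rcases i with i | i <;> rfl
    rwa [h4] at h3
  let w' : Fin (m + 1) → S := fun e => UP.cst π (w e)
  have hTκs : AlgebraicIndependent κs ![T] := indep_mono hκsκ hT
  have hw0 : w 0 ≠ 0 := hq.ne_zero hTκs
  have hw0' : w' 0 ≠ 0 := (_root_.map_ne_zero _).2 hw0
  have hw1' : ∀ e : Fin (m + 1), (e : ℕ) = 1 → w' e = t' * w' 0 := by
    intro e he
    have h1 : e = ⟨1, by omega⟩ := Fin.ext he
    change UP.cst π (w e) = UP.cst π T * UP.cst π (w 0)
    rw [h1, hw, map_mul]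
  have hsW : SplitW κ₂ t' q' w' := hq.map (UP.cst π)
  have hgw : ∀ i, g' i = ∑ e : Fin (m + 1), xg π xx (i, e) * w' e := hgg
  -- double transitivity
  have h2 : ∀ i j i' j', i ≠ j → i' ≠ j' → ∃ σ : S ≃+* S, (∀ y ∈ Kg, σ y = y) ∧
      σ (θ' i) = θ' i' ∧ σ (θ' j) = θ' j' := by
    intro i j i' j' hij hij'
    obtain ⟨σ, hσ, hσq, hσi, hσj⟩ := two_trans_S (T' := t') (q' := q') hκ₂κ' ht' hx0 hxκ' hsW hw0' hw1'
      hd hm hlev'.inj (by rw [← hgw]; exact hg'0) (fun i => by
        have h1 := hrootg i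
        simp only [hgw] at h1
        exact h1) hij hij'
    have hk0gen : k0 ≤ B₁ :=
      Subfield.closure_mono (Set.union_subset_union_left _ (gen_mono_left hL1κ'))
    have hB₁Kg : B₁ ≤ Kg := by
      rw [hKgeq]
      exact Subfield.closure_mono (Set.union_subset_union_left _ h.gen_le)
    have hσB : ∀ y ∈ B₁, σ y = y := by
      have h3 : B₁ ≤ (RingEquiv.toRingHom σ).eqLocusField (RingHom.id S) := by
        change Subfield.closure _ ≤ _
        rw [Subfield.closure_le]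
        rintro y (hy | hy)
        · exact hσ y (by rw [← hτ1]; exact hy)
        · rw [Set.mem_singleton_iff.1 hy]
          exact hσq
      exact fun y hy => h3 hy
    obtain ⟨τ, hτ, hττ⟩ := lift_conj (B := B₁) (K' := Kg) hB₁Kg hrel' θ'
      (fun i => isAlgebraic_mono hk0gen (hθalg i)) σ hσB
    exact ⟨τ, hτ, (hττ i).trans hσi, (hττ j).trans hσj⟩
  -- internal automorphisms
  have hI2 : ∀ T' : S ≃+* S, UP.Internal π (Subfield.closure ((gen (gen F' u) ![T] : Set C) ∪ {q})) T' →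
      ∀ y ∈ Kg, T' y ∈ Kg := by
    intro T' hT' y hy
    refine UP.Internal.maps h hT' ?_ hy
    intro τ hτ x hx
    have hτκ : ∀ y ∈ κ, τ y ∈ κ := by
      intro y hy
      rw [hκ] at hy ⊢
      have hfix : ∀ c ∈ gen F' u, τ c = c := fun c hc =>
        hτ c (Subfield.subset_closure (Or.inl (le_gen hc)))
      obtain ⟨q, hq0, hq⟩ := hy
      exact ⟨q, hq0, by rw [← map_aeval hfix, hq, map_zero]⟩
    have h1 : gen κ ![T] ≤ (gen κ ![T]).comap (τ : C →+* C) := by
      conv_lhs => unfold gen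
      rw [Subfield.closure_le, Set.union_subset_iff]
      refine ⟨fun x hx => le_gen (hτκ x hx), ?_⟩
      rintro _ ⟨i, rfl⟩
      fin_cases i
      change τ T ∈ gen κ ![T]
      rw [hτ T (Subfield.subset_closure (Or.inl (gen_mem (τ := ![T]) 0)))]
      exact gen_mem (τ := ![T]) 0
    have h2 : Subfield.closure ((gen κ ![T] : Set C) ∪ {q}) ≤
        (Subfield.closure ((gen κ ![T] : Set C) ∪ {q})).comap (τ : C →+* C) := by
      rw [Subfield.closure_le]
      rintro y (hy | hy)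
      · exact Subfield.subset_closure (Or.inl (h1 hy))
      · rw [Set.mem_singleton_iff.1 hy]
        change τ q ∈ Subfield.closure ((gen κ ![T] : Set C) ∪ {q})
        rw [hτ q (Subfield.subset_closure (Or.inr rfl))]
        exact Subfield.subset_closure (Or.inr rfl)
    exact h2 hx
  obtain ⟨β, hβ, hβn, hβθ, hβα, hβz⟩ := group_trick hk0Kst hKstKg hp.ne' hd hlev' hμ' hθalg
    hαalg hz h2 (UP.Internal π (Subfield.closure ((gen (gen F' u) ![T] : Set C) ∪ {q})))
    (fun T' hT' y hy => UP.Internal.fix h hT' hy) hI2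
    (fun β z hβ hβz => h.mem_of_internal (fun x => isAlgebraic_mono
      (fun y hy => Subfield.subset_closure (Or.inl hy)) (halg x)) hβ hβz)
  obtain ⟨z'', hz''⟩ := descend hk0Kst hrel hp.ne' hlev' hf'k0 hμ' hβ hβn hβθ hβα hβz
  have hz₂ : Lev (Subfield.closure ((gen L1 ![t'] : Set S) ∪ {q'})) p
      (fun i : Fin (d + 1) =>
        (∑ e : Fin (m + 1), xg π xx (Fin.last d, e) * w' e) ^ (ν - 1) *
          ∑ e : Fin (m + 1), xg π xx (i, e) * w' e) θ' z'' (π α) := by
    have h1 : f' = fun i : Fin (d + 1) =>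
        (∑ e : Fin (m + 1), xg π xx (Fin.last d, e) * w' e) ^ (ν - 1) *
          ∑ e : Fin (m + 1), xg π xx (i, e) * w' e := by
      funext i
      change g' (Fin.last d) ^ (ν - 1) * g' i = _
      rw [hgw, hgw]
    rw [← h1, ← hτ1]
    exact hz''
  refine no_lev_S hxT hsW hw0' hw1' hp hν1 hν hd hm (L' := L1) ?_ hz₂
  intro A hA1 hA2 hA3
  change gen L' u' ≤ _
  conv_lhs => unfold gen
  rw [Subfield.closure_le, Set.union_subset_iff]
  constructor
  swap
  · rintro _ ⟨i, rfl⟩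
    exact i.elim0
  change L' ≤ _
  change Subfield.closure _ ≤ _
  rw [Subfield.closure_le, Set.union_subset_iff]
  constructor
  · intro x hx
    exact hWR x hx.1 (mem_acl.1 hx.2) A hA1 hA2 hA3
  · rintro _ hx
    rw [Set.mem_singleton_iff.mp hx]
    refine Subfield.subset_closure (Or.inl (hA1 ⟨ζ, (hκs ζ).2 ?_, rfl⟩))
    apply IsAlgebraic.of_pow hp
    rw [hζ]
    exact isAlgebraic_one


/-- **There is no family of level structures with bounded data and generic parameters.** -/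
theorem no_family_G {J : Type v} {F C : Type u} [Field F] [CharZero F] [Field C] [Algebra F C]
    [IsAlgClosed C] {U : Ultrafilter J} {S : Type w} [Field S] {π : (J → C) →+* S}
    (h : UP U π) {m D d p ν B M : ℕ} (hp : 0 < p) (hν1 : 1 ≤ ν) (hν : ¬ p ∣ ν) (hd : 3 ≤ d)
    (hm : 1 ≤ m) {vv : J → Fin (d + 1) × Fin (m + 1) → F}
    {Fs κs : Subfield C} (hFs : Fs ≤ (algebraMap F C).fieldRange)
    (hκs : ∀ c : C, c ∈ κs ↔ IsAlgebraic Fs c)
    (hx : AlgebraicIndependent (Fs.map (UP.cst π)) (xg π fun j i => algebraMap F C (vv j i)))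
    {T : C} {κ : Subfield C} (hκ : ∀ x : C, x ∈ κ ↔ IsAlgebraic (algebraMap F C).fieldRange x)
    (hT : AlgebraicIndependent κ ![T])
    (hWR : ∀ y ∈ h.gsub (algebraMap F C).fieldRange,
      IsAlgebraic (gn (Fs.map (UP.cst π)) (xg π fun j i => algebraMap F C (vv j i))) y →
      ∀ A : Subfield S, κs.map (UP.cst π) ≤ A → (∀ x : S, IsAlgebraic A x → x ∈ A) →
      (∀ (i : Fin (d + 1)) (e : Fin (m + 1)), e ≠ 0 →
        xg π (fun j i => algebraMap F C (vv j i)) (i, e) ∈ A) →
      y ∈ Subfield.closure ((A : Set S) ∪ Set.range (xg π (fun j i => algebraMap F C (vv j i)))))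
    {q : C} {w : Fin (m + 1) → C} (hq : SplitW κs T q w) (hw : w ⟨1, by omega⟩ = T * w 0)
    (hqa : IsAlgebraic (gen Fs ![T]) q)
    (hwk : ∀ l, w l ∈ Subfield.closure ((gen Fs ![T] : Set C) ∪ {q}))
    (halg : ∀ x : C, IsAlgebraic (gen (algebraMap F C).fieldRange ![T]) x)
    {θ : J → Fin d → C} {z : J → Fin d → Fin d → C} {α : J → C}
    (hlev : ∀ a, Lev (Subfield.closure ((gen (algebraMap F C).fieldRange ![T] : Set C) ∪ {q})) p
      (fun i : Fin (d + 1) =>
        (∑ e : Fin (m + 1), algebraMap F C (vv a (Fin.last d, e)) * w e) ^ (ν - 1) *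
          ∑ e : Fin (m + 1), algebraMap F C (vv a (i, e)) * w e)
      (θ a) (z a) (α a))
    {Δ : Fin (M + 1) → MvPolynomial (Fin (d + 1) × Fin (m + 1)) C}
    (hΔ : ∀ l s, (Δ l).coeff s ∈ Fs)
    (hΔ0 : ∀ a, ∃ l, MvPolynomial.eval (fun x => algebraMap F C (vv a x)) (Δ l) ≠ 0)
    (hdata : ∀ a i j, i ≠ j → DataR κ (gen κ ![T]) T D 0 p B
      (fun (_ : Fin (0 + 1)) (l : Fin (M + 1)) =>
        MvPolynomial.eval (fun x => algebraMap F C (vv a x)) (Δ l))
      ![q, θ a i, θ a j] (z a i j)) : False := by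
  have hC0 : CharZero C := charZero_of_injective_algebraMap (algebraMap F C).injective
  have hp0 : NeZero p := ⟨hp.ne'⟩
  have hpC : NeZero (p : C) := ⟨Nat.cast_ne_zero.mpr hp.ne'⟩
  obtain ⟨ζ, hζ⟩ := HasEnoughRootsOfUnity.exists_primitiveRoot C p
  let F' : Subfield C := Subfield.closure (((algebraMap F C).fieldRange : Set C) ∪ {ζ})
  have hFF' : (algebraMap F C).fieldRange ≤ F' := fun x hx => Subfield.subset_closure (Or.inl hx)
  have hζF' : ζ ∈ F' := Subfield.subset_closure (Or.inr rfl)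
  have hFκ : (algebraMap F C).fieldRange ≤ κ := fun x hx =>
    (hκ x).mpr (isAlgebraic_algebraMap (⟨x, hx⟩ : (algebraMap F C).fieldRange))
  have hζalg : IsAlgebraic (algebraMap F C).fieldRange ζ := by
    apply IsAlgebraic.of_pow hp
    rw [hζ.pow_eq_one]
    exact isAlgebraic_one
  have hF'κ : F' ≤ κ := by
    change Subfield.closure _ ≤ _
    rw [Subfield.closure_le, Set.union_subset_iff]
    constructor
    · exact hFκ
    · intro x hx
      rw [Set.mem_singleton_iff.mp hx]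
      exact (hκ ζ).mpr hζalg
  have hκcl : ∀ x : C, IsAlgebraic κ x → x ∈ κ := by
    intro x hx
    have h0 : κ = (algebraicClosure (algebraMap F C).fieldRange C).toSubfield := by
      ext y
      rw [hκ]
      exact mem_algebraicClosure_iff.symm
    rw [hκ]
    have h1 : IsAlgebraic (algebraicClosure (algebraMap F C).fieldRange C) x := by
      rw [h0] at hx
      exact hx
    exact (isIntegral_trans (R := (algebraMap F C).fieldRange)
      (A := algebraicClosure (algebraMap F C).fieldRange C) _ h1.isIntegral).isAlgebraic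
  refine no_family_mu_G h hp hν1 hν hd hm hFs hκs hx (F' := F') (κ := κ) (ζ := ζ) rfl hζ.pow_eq_one ?_ ?_
    hT hWR hq hw hqa hwk ?_ (fun a => Lev_mono (Subfield.closure_mono (Set.union_subset_union_left _
      (gen_mono_left hFF'))) (hlev a)) hΔ hΔ0 hdata
  · intro ξ hξ
    obtain ⟨i, -, hi⟩ := hζ.eq_pow_of_pow_eq_one hξ
    rw [← hi]
    exact Subfield.pow_mem _ hζF' _
  · intro x
    constructor
    · intro hx
      exact isAlgebraic_mono hFF' ((hκ x).mp hx)
    · intro hx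
      exact hκcl x (isAlgebraic_mono hF'κ hx)
  · exact fun x => isAlgebraic_mono (gen_mono_left hFF') (halg x)

end Pool.Agent.SLG
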