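import Pool.Agent.Helper10.RR.SubstW
import Pool.Agent.Helper10.UL.FinalTheta
import Pool.Agent.Helper10.SLG.Data
import Pool.Agent.Helper10.SLG.NF
import Pool.Agent.Helper10.SLG.Mod

/-!
# Project SLG: the key theorem for generic parameters, uniform version
-/

universe u v w

namespace Pool.Agent.SLG

open Polynomial IntermediateField Pool.Agent.Helper37.UL Pool.Agent.Helper91.Sect Pool.Agent.HP UL RR
open Pool.Agent.SLS Pool.Agent.OPN Pool.Agent.OPG

section small

variable {C : Type u} [Field C] (Fs : Subfield C) (T q : C)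

/-- the small field -/
abbrev Ks : Subfield C := Subfield.closure ((Fs : Set C) ∪ {T, q})

theorem le_Ks : Fs ≤ Ks Fs T q := fun _ hx => Subfield.subset_closure (Or.inl hx)

theorem T_mem : T ∈ Ks Fs T q := Subfield.subset_closure (Or.inr (Or.inl rfl))

theorem q_mem : q ∈ Ks Fs T q := Subfield.subset_closure (Or.inr (Or.inr rfl))

end small

/-- a nonzero polynomial does not vanish at almost all members of a generic family -/
theorem ev_aeval_ne {J : Type v} {C : Type u} [Field C] {Uf : Ultrafilter J} {S : Type w} [Field S]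
    {π : (J → C) →+* S} (h : UP Uf π) {Fs : Subfield C} {I : Type} {xx : J → I → C}
    (hx : AlgebraicIndependent (Fs.map (UP.cst π)) (xg π xx)) {Ψ : MvPolynomial I Fs}
    (hΨ : Ψ ≠ 0) : ∀ᶠ j in (Uf : Filter J), MvPolynomial.aeval (xx j) Ψ ≠ 0 := by
  by_contra hcon
  rw [← Ultrafilter.eventually_not] at hcon
  simp only [not_not] at hcon
  have h1 : π (fun j => MvPolynomial.aeval (xx j) Ψ) = 0 := (h.eq0 _).2 hcon
  let φ : Fs →+* Fs.map (UP.cst π) :=
    ((UP.cst π).comp (algebraMap Fs C)).codRestrict (Fs.map (UP.cst π)).toSubring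
      fun y => ⟨y, y.2, rfl⟩
  have hφ : ((MvPolynomial.aeval (xg π xx) : MvPolynomial I (Fs.map (UP.cst π)) →ₐ[_] S) :
      MvPolynomial I (Fs.map (UP.cst π)) →+* S).comp (MvPolynomial.map φ) =
      π.comp (RingHom.pi fun j => ((MvPolynomial.aeval (xx j) : MvPolynomial I Fs →ₐ[Fs] C) :
        MvPolynomial I Fs →+* C)) := by
    refine MvPolynomial.ringHom_ext (fun c => ?_) (fun i => ?_)
    · rw [RingHom.comp_apply, MvPolynomial.map_C, RingHom.comp_apply]
      change MvPolynomial.aeval (xg π xx) (MvPolynomial.C (φ c)) =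
        π (fun j => MvPolynomial.aeval (xx j) (MvPolynomial.C c))
      simp only [MvPolynomial.aeval_C]
      rfl
    · rw [RingHom.comp_apply, MvPolynomial.map_X, RingHom.comp_apply]
      change MvPolynomial.aeval (xg π xx) (MvPolynomial.X i) =
        π (fun j => MvPolynomial.aeval (xx j) (MvPolynomial.X i))
      simp only [MvPolynomial.aeval_X]
      rfl
  have h2 : MvPolynomial.aeval (xg π xx) (MvPolynomial.map φ Ψ) = 0 := by
    rw [← h1]
    exact RingHom.congr_fun hφ Ψ
  have h3 : MvPolynomial.map φ Ψ = 0 := by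
    apply hx
    rw [h2, map_zero]
  exact hΨ (MvPolynomial.map_injective φ φ.injective (h3.trans (map_zero _).symm))

/-- **The key theorem for generic parameters, uniform version.** -/
theorem key_GW (k₀ : Type u) [Field k₀] {d p ν : ℕ} (hd : 3 ≤ d) (hp : 2 ≤ p) (hν1 : 1 ≤ ν)
    (hν : ¬ p ∣ ν) (hpd : p ∣ d) :
    OPG.KeyGW k₀ (I := Fin (d + 1)) (fun k' [Field k'] ι f => PSec d p ν k' ι f) := by
  classical
  intro J F k C _ _ _ _ _ _ _ _ _ ι T q hT htop κ hκ Fs κs hFs hκs hqs hks m w hs hw0 hw1 Uf S _ π h
    v₀ hx₀ hWR₀ Kb _ _ _ _ hP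
  have hk0 : CharZero k := charZero_of_injective_algebraMap (algebraMap F k).injective
  have hCcl : IsAlgClosed C := IsAlgClosure.isAlgClosed k
  have hC0 : CharZero C := charZero_of_injective_algebraMap (algebraMap k C).injective
  have hp0 : 0 < p := by omega
  obtain ⟨T', hT'⟩ : ∃ T', T' = algebraMap k C T := ⟨_, rfl⟩
  obtain ⟨q', hq'⟩ : ∃ q', q' = algebraMap k C q := ⟨_, rfl⟩
  rw [← hT', ← hq'] at hks hs
  rw [← hT', ← hq'] at hqs
  -- transcendence
  have hTκ : AlgebraicIndependent κ ![algebraMap k C T] := by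
    rw [algebraicIndependent_unique_type_iff]
    exact Pool.Agent.TD.kappa_transc_one hκ hT
  have hTκ' : Transcendental κ T' := by
    rw [hT']
    exact algebraicIndependent_iff_transcendental.1 hTκ
  have hFCκ : (algebraMap F C).fieldRange ≤ κ := by
    rintro _ ⟨c, rfl⟩
    exact (hκ _).2 (isAlgebraic_algebraMap c)
  have hFsκ : Fs ≤ κ := hFs.trans hFCκ
  -- the small fields
  let iA : Algebra Fs (Ks Fs T' q') := (Subfield.inclusion (le_Ks Fs T' q')).toAlgebra
  have iT : IsScalarTower Fs (Ks Fs T' q') C := IsScalarTower.of_algebraMap_eq fun _ => rfl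
  let Ts : Ks Fs T' q' := ⟨T', T_mem Fs T' q'⟩
  let qs : Ks Fs T' q' := ⟨q', q_mem Fs T' q'⟩
  have hFs0 : CharZero Fs := (algebraMap Fs C).charZero
  have hTs : Transcendental Fs Ts := by
    intro h0
    have h1 : IsAlgebraic Fs T' := h0.algebraMap (A := C)
    exact hTκ' (isAlgebraic_mono hFsκ h1)
  have hmapTs : (adjoin Fs {Ts}).toSubfield.map (algebraMap (Ks Fs T' q') C) = gen Fs ![T'] := by
    rw [adjoin_toSubfield, RingHom.map_field_closure]
    unfold gen
    congr 1
    rw [Set.image_union, Set.image_singleton, Matrix.range_cons, Matrix.range_empty, Set.union_empty]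
    congr 1
    ext x
    constructor
    · rintro ⟨_, ⟨y, rfl⟩, rfl⟩
      exact y.2
    · intro hx
      exact ⟨_, ⟨⟨x, hx⟩, rfl⟩, rfl⟩
  have hqsa : IsAlgebraic (adjoin Fs {Ts}) qs := by
    obtain ⟨Q, hQ0, hQ⟩ := hqs
    have hmem : ∀ y ∈ gen Fs ![T'], ∃ y' : adjoin Fs {Ts}, algebraMap (Ks Fs T' q') C
        (y' : Ks Fs T' q') = y := by
      intro y hy
      rw [← hmapTs] at hy
      obtain ⟨y', hy', rfl⟩ := hy
      exact ⟨⟨y', hy'⟩, rfl⟩
    choose! g hg using hmem
    let φ : gen Fs ![T'] →+* adjoin Fs {Ts} :=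
      { toFun := fun y => g y
        map_one' := by
          apply Subtype.ext
          apply (algebraMap (Ks Fs T' q') C).injective
          rw [hg _ (Subtype.property _)]
          rfl
        map_mul' := fun a b => by
          apply Subtype.ext
          apply (algebraMap (Ks Fs T' q') C).injective
          rw [hg _ (Subtype.property _)]
          change (a : C) * b = algebraMap (Ks Fs T' q') C ((g a : Ks Fs T' q') * (g b : Ks Fs T' q'))
          rw [map_mul, hg _ a.2, hg _ b.2]
        map_zero' := by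
          apply Subtype.ext
          apply (algebraMap (Ks Fs T' q') C).injective
          rw [hg _ (Subtype.property _)]
          rfl
        map_add' := fun a b => by
          apply Subtype.ext
          apply (algebraMap (Ks Fs T' q') C).injective
          rw [hg _ (Subtype.property _)]
          change (a : C) + b = algebraMap (Ks Fs T' q') C ((g a : Ks Fs T' q') + (g b : Ks Fs T' q'))
          rw [map_add, hg _ a.2, hg _ b.2] }
    refine ⟨Q.map φ, (Polynomial.map_ne_zero_iff φ.injective).2 hQ0, ?_⟩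
    apply (algebraMap (Ks Fs T' q') C).injective
    rw [map_zero, aeval_def, eval₂_map, hom_eval₂]
    rw [aeval_def] at hQ
    rw [← hQ]
    congr 1
    refine RingHom.ext fun y => ?_
    exact hg _ y.2
  have htops : adjoin Fs {Ts, qs} = ⊤ := by
    have h1 : (adjoin Fs {Ts, qs}).toSubfield.map (algebraMap (Ks Fs T' q') C) = Ks Fs T' q' := by
      rw [adjoin_toSubfield, RingHom.map_field_closure]
      congr 1
      rw [Set.image_union, Set.image_pair]
      congr 1
      ext x
      constructor
      · rintro ⟨_, ⟨y, rfl⟩, rfl⟩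
        exact y.2
      · intro hx
        exact ⟨_, ⟨⟨x, hx⟩, rfl⟩, rfl⟩
    rw [eq_top_iff]
    intro x _
    have h2 : (x : C) ∈ (adjoin Fs {Ts, qs}).toSubfield.map (algebraMap (Ks Fs T' q') C) := by
      rw [h1]
      exact x.2
    obtain ⟨y, hy, hyx⟩ := h2
    have h3 : y = x := Subtype.ext hyx
    rw [← h3]
    exact hy
  have hwmem : ∀ l, algebraMap k C (ι (w l)) ∈ Ks Fs T' q' := fun l => hks (w l)
  let ws : Fin (m + 2) → Ks Fs T' q' := fun l => ⟨algebraMap k C (ι (w l)), hwmem l⟩
  have hws0 : ws 0 ≠ 0 := by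
    intro h0
    have h1 : algebraMap k C (ι (w 0)) = 0 := congrArg Subtype.val h0
    rw [← RingHom.comp_apply] at h1
    exact hw0 ((map_eq_zero _).1 h1)
  obtain ⟨D, B, M, Ψ, Δ, -, hΨ, hB⟩ := exists_dataG (C := C) hTs hqsa htops (m := m + 1) (w := ws)
    hws0 d p hp0 hd
  obtain ⟨xx, hxx⟩ : ∃ xx : J → Fin (d + 1) × Fin (m + 2) → C,
    xx = fun j i => algebraMap F C (v₀ j i) := ⟨_, rfl⟩
  -- almost all the parameters are good
  have hgood := ev_aeval_ne h hx₀ hΨ
  -- all the parameters are good, without loss of generality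
  obtain ⟨j₀, hj₀⟩ := hgood.exists
  let g : J → J := fun j =>
    if MvPolynomial.aeval (fun i => algebraMap F C (v₀ j i)) Ψ ≠ 0 then j else j₀
  let vv : J → Fin (d + 1) × Fin (m + 2) → F := fun j => v₀ (g j)
  have hvv : ∀ j, MvPolynomial.aeval (fun i => algebraMap F C (vv j i)) Ψ ≠ 0 := by
    intro j
    simp only [vv, g]
    split_ifs with h1
    · exact h1
    · exact hj₀
  have hev : ∀ᶠ j in (Uf : Filter J), vv j = v₀ j := by
    filter_upwards [hgood] with j hj
    simp only [vv, g]
    rw [if_pos hj]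
  have hxg : xg π (fun j i => algebraMap F C (vv j i)) =
      xg π (fun j i => algebraMap F C (v₀ j i)) := by
    funext i
    refine (h.eq_iff _ _).mpr ?_
    filter_upwards [hev] with j hj
    rw [hj]
  -- level structures
  have hA : ∀ j : J, ∃ (θ : Fin d → C) (z : Fin d → Fin d → C) (α : C),
      Lev (algebraMap k C).fieldRange p
        (fun i : Fin (d + 1) => algebraMap k C (PL.sysW (ι ∘ w) (vv j) (Fin.last d)) ^ (ν - 1) *
          algebraMap k C (PL.sysW (ι ∘ w) (vv j) i)) θ z α ∧
      ∀ V : ValuationSubring C, (∀ c : F, algebraMap k C (algebraMap F k c) ∈ V) →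
        GoodAt V (fun i : Fin (d + 1) => algebraMap k C (PL.sysW (ι ∘ w) (vv j) i)) θ →
        ∀ σ : C ≃+* C, Inert (algebraMap k C).fieldRange V σ →
          ∀ i j, i ≠ j → σ (z i j) = z i j := fun j =>
    lev_of_mod ι hp hν1 hpd hd (hP (g j))
  choose θ z α hlev hin using hA
  -- values
  have hmap : ∀ c : F, algebraMap k C (algebraMap F k c) = algebraMap F C c := fun c =>
    (IsScalarTower.algebraMap_apply F k C c).symm
  have hsys : ∀ j i, algebraMap k C (PL.sysW (ι ∘ w) (vv j) i) =
      ∑ e : Fin (m + 2), algebraMap F C (vv j (i, e)) * algebraMap k C (ι (w e)) := by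
    intro j i
    unfold PL.sysW
    rw [map_sum]
    refine Finset.sum_congr rfl fun e _ => ?_
    rw [map_mul, hmap]
    rfl
  simp only [hsys] at hlev hin
  have hle : (algebraMap k C).fieldRange ≤
      Subfield.closure ((gen (algebraMap F C).fieldRange ![T'] : Set C) ∪ {q'}) := by
    rintro _ ⟨x, rfl⟩
    have h1 : (IntermediateField.adjoin F {T, q} : IntermediateField F k).toSubfield ≤
        (Subfield.closure ((gen (algebraMap F C).fieldRange ![T'] : Set C) ∪
        {q'})).comap (algebraMap k C) := by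
      rw [IntermediateField.adjoin_toSubfield, Subfield.closure_le]
      rintro x (⟨y, rfl⟩ | hx)
      · exact Subfield.subset_closure (Or.inl (le_gen ⟨y, IsScalarTower.algebraMap_apply F k C y⟩))
      · rcases hx with hx | hx
        · refine Subfield.subset_closure (Or.inl ?_)
          rw [hx, ← hT']
          exact gen_mem (τ := ![T']) 0
        · rw [Set.mem_singleton_iff.mp hx]
          exact Subfield.subset_closure (Or.inr hq'.symm)
    rw [htop] at h1
    exact h1 (Subfield.mem_top x)
  have hκcl : ∀ x : C, IsAlgebraic κ x → x ∈ κ := by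
    intro x hx
    have h0 : κ = (algebraicClosure F C).toSubfield := by
      ext y
      rw [hκ]
      exact mem_algebraicClosure_iff.symm
    rw [hκ]
    have h1 : IsAlgebraic (algebraicClosure F C) x := by
      rw [h0] at hx
      exact hx
    exact (isIntegral_trans (R := F) (A := algebraicClosure F C) _ h1.isIntegral).isAlgebraic
  -- `C` is algebraic over `F(T)`
  have halgC : ∀ x : C, IsAlgebraic (gen (algebraMap F C).fieldRange ![T']) x := by
    intro x
    set g := gen (algebraMap F C).fieldRange ![T'] with hg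
    have hqg : IsAlgebraic g q' := isAlgebraic_mono (TH.gen_mono_left hFs) hqs
    let A : Subfield C := (algebraicClosure g C).toSubfield
    have hA : ∀ y, y ∈ A ↔ IsAlgebraic g y := fun y => mem_algebraicClosure_iff
    have hcA : Subfield.closure ((g : Set C) ∪ {q'}) ≤ A := by
      rw [Subfield.closure_le, Set.union_subset_iff]
      refine ⟨fun y hy => (hA y).2 (isAlgebraic_algebraMap (⟨y, hy⟩ : g)), ?_⟩
      intro y hy
      rw [Set.mem_singleton_iff.mp hy]
      exact (hA _).2 hqg
    have h1 : IsAlgebraic k x := (IsAlgClosure.isAlgebraic (R := k) (K := C)).isAlgebraic x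
    have h2 : IsAlgebraic (algebraMap k C).fieldRange x := TD.isAlgebraic_range_iff.2 h1
    have h3 : IsAlgebraic A x := isAlgebraic_mono (hle.trans hcA) h2
    have h4 : IsAlgebraic (algebraicClosure g C) x := h3
    exact (isIntegral_trans (R := g) (A := algebraicClosure g C) _ h4.isIntegral).isAlgebraic
  have hgκ : gen κ ![T'] = (IntermediateField.adjoin κ {T'}).toSubfield := by
    rw [IntermediateField.adjoin_toSubfield]
    unfold gen
    congr 1
    rw [Matrix.range_cons, Matrix.range_empty, Set.union_empty]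
    congr 1
    ext x
    constructor
    · intro hx
      exact ⟨⟨x, hx⟩, rfl⟩
    · rintro ⟨y, rfl⟩
      exact y.2
  have halgκ : ∀ x : C, IsAlgebraic (IntermediateField.adjoin κ {T'}) x := by
    intro x
    have h1 : IsAlgebraic (gen κ ![T']) x := isAlgebraic_mono (TH.gen_mono_left hFCκ) (halgC x)
    rw [hgκ] at h1
    exact h1
  have hcl : Subfield.closure ((κ : Set C) ∪ {T'}) = gen κ ![T'] := by
    unfold gen
    rw [Matrix.range_cons, Matrix.range_empty, Set.union_empty]
  have hkadj : ∀ x ∈ (algebraMap k C).fieldRange, x ∈ IntermediateField.adjoin κ {T', q'} := by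
    have h1 : Subfield.closure ((gen (algebraMap F C).fieldRange ![T'] : Set C) ∪ {q'}) ≤
        (IntermediateField.adjoin κ {T', q'}).toSubfield := by
      rw [Subfield.closure_le, Set.union_subset_iff]
      refine ⟨?_, ?_⟩
      · intro x hx
        have h2 : gen (algebraMap F C).fieldRange ![T'] ≤
            (IntermediateField.adjoin κ {T', q'}).toSubfield := by
          unfold gen
          rw [Subfield.closure_le, Set.union_subset_iff]
          refine ⟨fun y hy => (IntermediateField.adjoin κ {T', q'}).algebraMap_mem ⟨y, hFCκ hy⟩, ?_⟩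
          rintro _ ⟨i, rfl⟩
          fin_cases i
          exact IntermediateField.subset_adjoin κ _ (Or.inl rfl)
        exact h2 hx
      · intro x hx
        rw [Set.mem_singleton_iff.mp hx]
        exact IntermediateField.subset_adjoin κ _ (Or.inr rfl)
    exact fun x hx => h1 (hle hx)
  have hvκ : ∀ j i, algebraMap F C (vv j i) ∈ κ := fun j i => hFCκ ⟨_, rfl⟩
  have hBj := fun j => hB hκcl (fun c => hFsκ c.2) hTκ' halgκ (hvκ j) (hvv j)
  have haev : ∀ (j : J) (Q : MvPolynomial (Fin (d + 1) × Fin (m + 2)) Fs),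
      MvPolynomial.eval (fun x => algebraMap F C (vv j x)) (MvPolynomial.map (algebraMap Fs C) Q) =
        MvPolynomial.aeval (fun x => algebraMap F C (vv j x)) Q := by
    intro j Q
    rw [MvPolynomial.eval_map]
    rfl
  refine no_family_G (F := F) (C := C) (J := J) (B := B) (D := D) (M := M) h hp0 hν1 hν hd
    (show 1 ≤ m + 1 by omega) (vv := vv) hFs hκs (by rw [hxg]; exact hx₀) (T := T') (κ := κ)
    (fun x => ?_) (by rw [hT']; exact hTκ) ?_ (q := q') (w := fun l => algebraMap k C (ι (w l))) hs
    ?_ hqs (fun l => ?_) halgC (θ := θ) (z := z) (α := α) (fun j => (hlev j).mono hle)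
    (Δ := fun l => MvPolynomial.map (algebraMap Fs C) (Δ l)) (fun l s => ?_) (fun j => ?_)
    (fun j i i' hii => ?_)
  · rw [hκ]
    exact Pool.Agent.TD.isAlgebraic_range_iff.symm
  · rw [hxg]
    intro y hy hya A hκA hAcl hxA
    have h1 := hWR₀ y hy hya
    have h2 : acl (hi (κs.map (UP.cst π)) (xg π fun j i => algebraMap F C (v₀ j i))) ≤ A := by
      intro z hz
      apply hAcl
      refine isAlgebraic_mono ?_ (mem_acl.1 hz)
      unfold hi
      rw [Subfield.closure_le, Set.union_subset_iff]
      refine ⟨hκA, ?_⟩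
      rintro _ ⟨i, rfl⟩
      exact hxA i.1 i.2.succ (Fin.succ_ne_zero _)
    exact gn_mono h2 h1
  · change algebraMap k C (ι (w _)) = T' * algebraMap k C (ι (w 0))
    rw [hT', ← map_mul, ← hw1]
    rfl
  · have h1 : Subfield.closure ((Fs : Set C) ∪ {T', q'}) ≤
        Subfield.closure ((gen Fs ![T'] : Set C) ∪ {q'}) := by
      rw [Subfield.closure_le, Set.union_subset_iff]
      refine ⟨fun x hx => Subfield.subset_closure (Or.inl (le_gen hx)), ?_⟩
      rintro x (hx | hx)
      · rw [hx]
        exact Subfield.subset_closure (Or.inl (gen_mem (τ := ![T']) 0))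
      · rw [Set.mem_singleton_iff.mp hx]
        exact Subfield.subset_closure (Or.inr rfl)
    exact h1 (hwmem l)
  · rw [MvPolynomial.coeff_map]
    exact Subtype.property _
  · obtain ⟨l, hl⟩ := (hBj j).1
    refine ⟨l, ?_⟩
    rw [haev]
    exact hl
  · have hlead : ∑ e : Fin (m + 2),
        algebraMap F C (vv j (Fin.last d, e)) * algebraMap k C (ι (w e)) ≠ 0 := by
      intro h0
      apply (hlev j).lead
      rw [h0, mul_zero]
    have hroot : ∀ i, ∑ l : Fin (d + 1), (∑ e, algebraMap F C (vv j (l, e)) *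
        algebraMap k C (ι (w e))) * θ j i ^ (l : ℕ) = 0 := by
      intro i
      have h1 := (hlev j).root i
      simp only [mul_assoc] at h1
      rw [← Finset.mul_sum] at h1
      exact (mul_eq_zero.1 h1).resolve_left (pow_ne_zero _ hlead)
    have h1 := (hBj j).2 (K := (algebraMap k C).fieldRange) hkadj (hlev j) hroot
      (fun V _ hκV hg σ hσ => hin j V (fun c => hκV _ ((hκ _).2 (by
        rw [hmap]
        exact isAlgebraic_algebraMap c))) hg σ hσ) i i' hii
    simp only [haev]
    rw [← hcl]
    exact h1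

end Pool.Agent.SLG
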