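import Pool.Agent.Helper10.SLS.Fin
import Pool.Agent.Helper10.SLG.Key
import Pool.Agent.Helper13.OPG.E6
import Pool.Agent.Helper37.OPG.U2

/-!
# Project SLG, the final theorem: the exceptional curves are in one hypersurface for all base fields
-/

universe u

namespace Pool.Agent.SLG

open Polynomial Pool.Agent.Helper37.UL Pool.Agent.Helper91.Sect Pool.Agent.HP UL RR
  Pool.Agent.SLS Pool.Agent.RRW Pool.Agent.OPG

variable {F₀ k₀ : Type u} [Field F₀] [CharZero F₀] [Field k₀] [Algebra F₀ k₀]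

/-- The polynomials which are not separable of degree `d` are in a hypersurface. -/
theorem hyp_not_separable (hk₀ : ∃ S : Finset k₀, Subfield.closure (S : Set k₀) = ⊤) {d m : ℕ}
    {w : Fin (m + 1) → k₀} {l : Fin (m + 1)} (hw : w l ≠ 0) (hd : 3 ≤ d) :
    IsHypU F₀ k₀ fun F k _ _ _ _ (a : Fin (d + 1) × Fin (m + 1) → F) =>
      ¬ ((curveW (algebraMap k₀ k ∘ w) a).natDegree = d ∧
        (curveW (algebraMap k₀ k ∘ w) a).Separable) := by
  classical
  have hk0 : CharZero k₀ := charZero_of_injective_algebraMap (algebraMap F₀ k₀).injective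
  -- the resultant of the generic polynomial is not zero
  have hΦ : UL.RR d (spec (genc (d := d) w)) ≠ 0 := by
    let g : Fin (m + 1) ≃ Fin (m + 1) := Equiv.swap 0 l
    have h1 : UL.RR d (spec (genc (d := d) (w ∘ g))) ≠ 0 :=
      RR_genc_ne_zero (F := F₀) (d := d) (by
        change w (g 0) ≠ 0
        rw [show g 0 = l from Equiv.swap_apply_left 0 l]
        exact hw) (by omega)
    intro h0
    apply h1
    have h2 : spec (genc (d := d) (w ∘ g)) = (spec (genc (d := d) w)).map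
        ((MvPolynomial.rename fun x : Fin (d + 1) × Fin (m + 1) => (x.1, g x.2) :
          MvPolynomial (Fin (d + 1) × Fin (m + 1)) k₀ →ₐ[k₀] _) :
          MvPolynomial (Fin (d + 1) × Fin (m + 1)) k₀ →+* _) := by
      rw [spec_map]
      congr 1
      funext i
      unfold genc
      change _ = MvPolynomial.rename _ (∑ l, MvPolynomial.X (i, l) * MvPolynomial.C (w l))
      rw [map_sum, ← Equiv.sum_comp g]
      refine Finset.sum_congr rfl fun e _ => ?_
      rw [map_mul, MvPolynomial.rename_X, MvPolynomial.rename_C]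
      have h3 : g (g e) = e := Equiv.swap_apply_self 0 l e
      change MvPolynomial.X (i, g e) * MvPolynomial.C (w (g (g e))) = _
      rw [h3]
    rw [h2, UL.RR_map, h0, map_zero]
  obtain ⟨Ψ, hΨ, h⟩ := exists_restrictU (F₀ := F₀) hk₀ hΦ
  refine ⟨Ψ, hΨ, ?_⟩
  intro F k _ _ _ _ _ _ _ _ hF hk hfree a ha
  have hk00 : CharZero k := charZero_of_injective_algebraMap (algebraMap k₀ k).injective
  by_contra hne
  have h1 := h F k (fun hx => hfree hx) a hne
  apply ha
  have h2 : curveW (algebraMap k₀ k ∘ w) a = (spec (genc (d := d) w)).map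
      (MvPolynomial.eval₂Hom (algebraMap k₀ k) fun i => algebraMap F k (a i)) := by
    rw [spec_map, curveW_eq_spec]
    congr 1
    funext i
    unfold genc
    rw [map_sum]
    refine Finset.sum_congr rfl fun e _ => ?_
    rw [map_mul, MvPolynomial.eval₂Hom_X', MvPolynomial.eval₂Hom_C]
    rfl
  have h3 : UL.RR d (curveW (algebraMap k₀ k ∘ w) a) ≠ 0 := by
    rw [h2, UL.RR_map]
    exact h1
  exact (UL.RR_ne_zero_iff (by omega) (by rw [curveW_eq_spec]; exact natDegree_spec _)).1 h3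

/-- **No sections outside one hypersurface for all base fields.** -/
theorem hyp_any (hk₀ : ∃ S : Finset k₀, Subfield.closure (S : Set k₀) = ⊤) {d m : ℕ} {w : Fin (m + 1) → k₀}
    {i j l : Fin (m + 1)} (hT : AlgebraicIndependent F₀ ![w i / w l, w j / w l]) (hd : 3 ≤ d) :
    IsHypU F₀ k₀ fun F k _ _ _ _ (a : Fin (d + 1) × Fin (m + 1) → F) =>
      ¬ HasNoSectionsS d (curveW (algebraMap k₀ k ∘ w) a) := by
  classical
  have hT0 : Transcendental F₀ (w i / w l) := hT.transcendental 0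
  have hl : w l ≠ 0 := by
    intro h0
    rw [h0, div_zero] at hT0
    exact hT0 isAlgebraic_zero
  let I : Finset (ℕ × ℕ) := (d.divisors ×ˢ Finset.range d).filter
    fun c => 2 ≤ c.1 ∧ 1 ≤ c.2 ∧ c.2 < c.1
  have hI : ∀ c ∈ I, c.1 ∣ d ∧ 2 ≤ c.1 ∧ 1 ≤ c.2 ∧ c.2 < c.1 := by
    intro c hc
    rw [Finset.mem_filter, Finset.mem_product] at hc
    exact ⟨Nat.dvd_of_mem_divisors hc.1.1, hc.2⟩
  have h1 := IsHypU.bex (F₀ := F₀) (k₀ := k₀) I
    (A := fun c F k _ _ _ _ (a : Fin (d + 1) × Fin (m + 1) → F) =>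
      PSec d c.1 c.2 k (algebraMap k₀ k) (PL.sysW (algebraMap k₀ k ∘ w) a))
    (fun c hc => closed_of_keyGW (k₀ := k₀) (I := Fin (d + 1))
      (P := fun k' _ ι f => PSec d c.1 c.2 k' ι f) (key_GW k₀ hd (hI c hc).2.1 (hI c hc).2.2.1
        (Nat.not_dvd_of_pos_of_lt (hI c hc).2.2.1 (hI c hc).2.2.2) (hI c hc).1) hk₀ hT)
  refine ((hyp_not_separable (F₀ := F₀) hk₀ hl hd).or h1).mono ?_
  intro F k _ _ _ _ _ _ _ _ a ha
  by_contra hcon
  rw [not_or, not_not] at hcon
  obtain ⟨h3, h4⟩ := hcon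
  refine ha (hasNoSectionsS_of (by omega) h3.1 h3.2 fun p ν hp hpd hν1 hν hs => h4 ?_)
  refine ⟨(p, ν), ?_, h3.1, h3.2, hs⟩
  rw [Finset.mem_filter, Finset.mem_product]
  refine ⟨⟨Nat.mem_divisors.2 ⟨hpd, by omega⟩, Finset.mem_range.2 ?_⟩, hp, hν1, hν⟩
  exact lt_of_lt_of_le hν (Nat.le_of_dvd (by omega) hpd)

end Pool.Agent.SLG
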