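import Pool.Agent.Helper13.OPG.E6

/-!
# Project OPG, uniform version: the reduction, without a hypothesis on the small field of constants
-/

universe u

namespace Pool.Agent.OPG

open IntermediateField Pool.Agent.Helper37.UL UL Pool.Agent.OPN Pool.Agent.BT

/-- **(D') The reduction to the key statement, uniform version**, without a hypothesis on `F₀`. -/
theorem closed_of_keyG' {F₀ k₀ : Type u} [Field F₀] [CharZero F₀] [Field k₀] [Algebra F₀ k₀]
    {I : Type} [Finite I] {P : ∀ (k' : Type u) [Field k'], (k₀ →+* k') → (I → k') → Prop}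
    (hP : ∀ (k' : Type u) [Field k'] (ι : k₀ →+* k') (c : k') (f : I → k'), c ≠ 0 → P k' ι f →
      P k' ι fun q => c * f q) (key : KeyG k₀ P)
    (hk₀ : ∃ S : Finset k₀, Subfield.closure (S : Set k₀) = ⊤) {m : ℕ} {w : Fin (m + 1) → k₀}
    {i j l : Fin (m + 1)} (hT : AlgebraicIndependent F₀ ![w i / w l, w j / w l]) :
    ∃ Ψ : MvPolynomial (I × Fin (m + 1)) F₀, Ψ ≠ 0 ∧
      ∀ (F k : Type u) [Field F] [Field k] [Algebra F₀ F] [Algebra F k] [Algebra k₀ k]
        [Algebra F₀ k] [IsScalarTower F₀ F k] [IsScalarTower F₀ k₀ k],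
        (∃ S : Finset F, Subfield.closure (S : Set F) = ⊤) →
        adjoin F (Set.range (algebraMap k₀ k)) = ⊤ →
        (∀ {n : ℕ} {x : Fin n → k₀}, AlgebraicIndependent F₀ x →
          AlgebraicIndependent F (algebraMap k₀ k ∘ x)) →
        ∀ a : I × Fin (m + 1) → F,
          P k (algebraMap k₀ k) (PL.sysW (algebraMap k₀ k ∘ w) a) → MvPolynomial.aeval a Ψ = 0 :=
  closed_of_keyGW (keyGW_of_keyG hP key) hk₀ hT

end Pool.Agent.OPG
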